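import Mathlib

/-!
# Coprime pairs in a box whose cross products are all divisible by `q`
-/

set_option autoImplicit false

namespace Pool.Agent.N365.SZ

open Finset Polynomial

/-- the cross product -/
def cr (P P' : ℤ × ℤ) : ℤ := P.1 * P'.2 - P'.1 * P.2

/-- the coprime pairs in the box -/
noncomputable def Box (B : ℕ) : Finset (ℤ × ℤ) := by
  classical
  exact ((Icc (-(B : ℤ)) B) ×ˢ (Icc (-(B : ℤ)) B)).filter fun P => IsCoprime P.1 P.2

theorem mem_Box {B : ℕ} {P : ℤ × ℤ} :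
    P ∈ Box B ↔ (|P.1| ≤ B ∧ |P.2| ≤ B) ∧ IsCoprime P.1 P.2 := by
  classical
  unfold Box
  rw [mem_filter, mem_product, mem_Icc, mem_Icc, abs_le, abs_le]

theorem card_Box (B : ℕ) : ((Box B).card : ℝ) ≤ (2 * B + 1) ^ 2 := by
  classical
  have h : (Box B).card ≤ ((Icc (-(B : ℤ)) B) ×ˢ (Icc (-(B : ℤ)) B)).card := card_filter_le _ _
  rw [card_product, Int.card_Icc] at h
  have e : ((B : ℤ) + 1 - -(B : ℤ)).toNat = 2 * B + 1 := by omega
  rw [e] at h
  calc ((Box B).card : ℝ) ≤ (((2 * B + 1) * (2 * B + 1) : ℕ) : ℝ) := by exact_mod_cast h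
    _ = _ := by push_cast; ring

/-- two coprime pairs with vanishing cross product are equal up to sign -/
theorem eq_of_cr {P P' : ℤ × ℤ} (h : IsCoprime P.1 P.2) (h' : IsCoprime P'.1 P'.2)
    (hc : cr P P' = 0) (hs : Int.sign P.2 = Int.sign P'.2) (ht : P.2 ≠ 0) : P = P' := by
  obtain ⟨s, t⟩ := P
  obtain ⟨s', t'⟩ := P'
  simp only [cr] at *
  have e : s * t' = s' * t := by linarith
  have h1 : t ∣ t' := by
    have : t ∣ s * t' := ⟨s', by rw [e]; ring⟩
    exact h.symm.dvd_of_dvd_mul_left this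
  have h2 : t' ∣ t := by
    have : t' ∣ s' * t := ⟨s, by rw [← e]; ring⟩
    exact h'.symm.dvd_of_dvd_mul_left this
  have h3 : t.natAbs = t'.natAbs := Int.natAbs_eq_of_dvd_dvd h1 h2
  have h4 : t = t' := by
    rw [← Int.sign_mul_natAbs t, ← Int.sign_mul_natAbs t', hs, h3]
  subst h4
  have h5 : s = s' := mul_right_cancel₀ ht e
  rw [h5]

/-- pairs with `|s| ≤ |t|` -/
theorem sep_card {B q : ℕ} (hq : 1 ≤ q) (A : Finset (ℤ × ℤ))
    (hA : ∀ P ∈ A, (|P.1| ≤ |P.2| ∧ |P.2| ≤ B) ∧ IsCoprime P.1 P.2)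
    (hcr : ∀ P ∈ A, ∀ P' ∈ A, (q : ℤ) ∣ cr P P') :
    (A.card : ℝ) ≤ 2 * (2 * (B : ℝ) ^ 2 / q + 1) := by
  classical
  have hq0 : (0 : ℝ) < q := by exact_mod_cast hq
  have ht0 : ∀ P ∈ A, P.2 ≠ 0 := by
    intro P hP h0
    obtain ⟨⟨h1, -⟩, h2⟩ := hA P hP
    rw [h0, abs_zero] at h1
    have h3 : P.1 = 0 := abs_eq_zero.mp (le_antisymm h1 (abs_nonneg _))
    rw [h3, h0] at h2
    exact not_isCoprime_zero_zero h2
  rcases Nat.eq_zero_or_pos B with hB | hB
  · have hAe : A = ∅ := by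
      rw [eq_empty_iff_forall_notMem]
      intro P hP
      have h1 := (hA P hP).1.2
      rw [hB, Nat.cast_zero] at h1
      exact ht0 P hP (abs_eq_zero.mp (le_antisymm h1 (abs_nonneg _)))
    rw [hAe, card_empty, Nat.cast_zero]
    positivity
  have hB0 : (0 : ℝ) < B := by exact_mod_cast hB
  set K : ℝ := (B : ℝ) ^ 2 / q with hK
  have hK0 : 0 < K := by positivity
  let φ : ℤ × ℤ → ℕ × Bool := fun P =>
    (⌊((P.1 : ℝ) / P.2 + 1) * K⌋₊, decide (0 < P.2))
  have hmaps : ∀ P ∈ A, φ P ∈ (range (⌊2 * K⌋₊ + 1)) ×ˢ (univ : Finset Bool) := by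
    intro P hP
    rw [mem_product]
    refine ⟨?_, mem_univ _⟩
    rw [mem_range, Nat.lt_succ_iff]
    refine Nat.floor_le_floor ?_
    have h1 := (hA P hP).1.1
    have h2 : |(P.1 : ℝ) / P.2| ≤ 1 := by
      rw [abs_div]
      have h3 : (0 : ℝ) < |(P.2 : ℝ)| := abs_pos.mpr (by exact_mod_cast ht0 P hP)
      rw [div_le_one h3]
      exact_mod_cast h1
    have h3 := (abs_le.mp h2).2
    nlinarith
  have hinj : ∀ P ∈ A, ∀ P' ∈ A, φ P = φ P' → P = P' := by
    intro P hP P' hP' he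
    have h1 := ht0 P hP
    have h2 := ht0 P' hP'
    have hfl := (Prod.ext_iff.mp he).1
    have hsg := (Prod.ext_iff.mp he).2
    simp only [φ] at hfl hsg
    have h1R : (P.2 : ℝ) ≠ 0 := by exact_mod_cast h1
    have h2R : (P'.2 : ℝ) ≠ 0 := by exact_mod_cast h2
    have hb : ∀ P ∈ A, |(P.1 : ℝ) / P.2| ≤ 1 := by
      intro P hP
      rw [abs_div]
      have h3 : (0 : ℝ) < |(P.2 : ℝ)| := abs_pos.mpr (by exact_mod_cast ht0 P hP)
      rw [div_le_one h3]
      exact_mod_cast (hA P hP).1.1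
    have hn1 : 0 ≤ ((P.1 : ℝ) / P.2 + 1) * K := by
      have := (abs_le.mp (hb P hP)).1
      apply mul_nonneg _ hK0.le
      linarith
    have hn2 : 0 ≤ ((P'.1 : ℝ) / P'.2 + 1) * K := by
      have := (abs_le.mp (hb P' hP')).1
      apply mul_nonneg _ hK0.le
      linarith
    have hlt : |((P.1 : ℝ) / P.2 + 1) * K - ((P'.1 : ℝ) / P'.2 + 1) * K| < 1 := by
      have a1 := Nat.floor_le hn1
      have a2 := Nat.lt_floor_add_one (((P.1 : ℝ) / P.2 + 1) * K)
      have a3 := Nat.floor_le hn2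
      have a4 := Nat.lt_floor_add_one (((P'.1 : ℝ) / P'.2 + 1) * K)
      rw [hfl] at a1 a2
      rw [abs_lt]
      constructor <;> linarith
    have hcz : cr P P' = 0 := by
      by_contra hne
      have hge : (q : ℝ) ≤ |((cr P P' : ℤ) : ℝ)| := by
        have := Int.le_of_dvd (abs_pos.mpr hne) ((dvd_abs _ _).mpr (hcr P hP P' hP'))
        exact_mod_cast this
      have e : ((P.1 : ℝ) / P.2 + 1) * K - ((P'.1 : ℝ) / P'.2 + 1) * K =
          ((cr P P' : ℤ) : ℝ) / (P.2 * P'.2) * K := by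
        unfold cr
        push_cast
        field_simp
        ring
      rw [e, abs_mul, abs_div, abs_mul, abs_of_pos hK0] at hlt
      have b1 : |(P.2 : ℝ)| ≤ B := by exact_mod_cast (hA P hP).1.2
      have b2 : |(P'.2 : ℝ)| ≤ B := by exact_mod_cast (hA P' hP').1.2
      have b3 : 0 < |(P.2 : ℝ)| := abs_pos.mpr h1R
      have b4 : 0 < |(P'.2 : ℝ)| := abs_pos.mpr h2R
      have b5 : |(P.2 : ℝ)| * |(P'.2 : ℝ)| ≤ (B : ℝ) ^ 2 := by
        rw [sq]; exact mul_le_mul b1 b2 b4.le hB0.le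
      have b6 : (q : ℝ) / (B : ℝ) ^ 2 ≤ |((cr P P' : ℤ) : ℝ)| / (|(P.2 : ℝ)| * |(P'.2 : ℝ)|) :=
        div_le_div₀ (abs_nonneg _) hge (by positivity) b5
      have b7 : (q : ℝ) / (B : ℝ) ^ 2 * K = 1 := by
        rw [hK]; field_simp
      nlinarith
    refine eq_of_cr (hA P hP).2 (hA P' hP').2 hcz ?_ h1
    rcases lt_or_gt_of_ne h1 with h3 | h3
    · have : ¬ 0 < P'.2 := by
        intro h4
        have := of_decide_eq_true (hsg.trans (decide_eq_true h4))
        omega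
      rw [Int.sign_eq_neg_one_of_neg h3, Int.sign_eq_neg_one_of_neg (by omega)]
    · have : 0 < P'.2 := of_decide_eq_true (hsg.symm.trans (decide_eq_true h3))
      rw [Int.sign_eq_one_of_pos h3, Int.sign_eq_one_of_pos this]
  have hcard := card_le_card_of_injOn φ hmaps (fun P hP P' hP' h => hinj P hP P' hP' h)
  rw [card_product, card_range, card_univ, Fintype.card_bool] at hcard
  have h5 : (⌊2 * K⌋₊ : ℝ) ≤ 2 * K := Nat.floor_le (by positivity)
  calc (A.card : ℝ) ≤ (((⌊2 * K⌋₊ + 1) * 2 : ℕ) : ℝ) := by exact_mod_cast hcard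
    _ = ((⌊2 * K⌋₊ : ℝ) + 1) * 2 := by push_cast; ring
    _ ≤ _ := by
      have : 2 * (B : ℝ) ^ 2 / q = 2 * K := by rw [hK]; ring
      rw [this]
      linarith

/-- **the count of a class** -/
theorem class_card {B q : ℕ} (hq : 1 ≤ q) (A : Finset (ℤ × ℤ)) (hA : A ⊆ Box B)
    (hcr : ∀ P ∈ A, ∀ P' ∈ A, (q : ℤ) ∣ cr P P') :
    (A.card : ℝ) ≤ 8 * (B : ℝ) ^ 2 / q + 4 := by
  classical
  have h1 := sep_card (B := B) hq (A.filter fun P => |P.1| ≤ |P.2|) (by
    intro P hP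
    rw [mem_filter] at hP
    have := mem_Box.mp (hA hP.1)
    exact ⟨⟨hP.2, this.1.2⟩, this.2⟩) (by
    intro P hP P' hP'
    exact hcr P (mem_filter.mp hP).1 P' (mem_filter.mp hP').1)
  have h2 := sep_card (B := B) hq ((A.filter fun P => ¬ |P.1| ≤ |P.2|).map
      (Equiv.prodComm ℤ ℤ).toEmbedding) (by
    intro P hP
    rw [mem_map] at hP
    obtain ⟨P', hP', rfl⟩ := hP
    rw [mem_filter] at hP'
    have := mem_Box.mp (hA hP'.1)
    refine ⟨⟨?_, this.1.1⟩, this.2.symm⟩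
    exact (not_le.mp hP'.2).le) (by
    intro P hP P' hP'
    rw [mem_map] at hP hP'
    obtain ⟨R, hR, rfl⟩ := hP
    obtain ⟨R', hR', rfl⟩ := hP'
    have := hcr R (mem_filter.mp hR).1 R' (mem_filter.mp hR').1
    have e : cr ((Equiv.prodComm ℤ ℤ).toEmbedding R) ((Equiv.prodComm ℤ ℤ).toEmbedding R') =
        -cr R R' := by
      unfold cr
      simp only [Equiv.coe_toEmbedding, Equiv.prodComm_apply, Prod.fst_swap, Prod.snd_swap]
      ring
    rw [e]
    exact (dvd_neg).mpr this)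
  rw [card_map] at h2
  have h3 : (A.filter fun P => |P.1| ≤ |P.2|).card + (A.filter fun P => ¬ |P.1| ≤ |P.2|).card =
      A.card := card_filter_add_card_filter_not _
  have h4 : (A.card : ℝ) = ((A.filter fun P => |P.1| ≤ |P.2|).card : ℝ) +
      ((A.filter fun P => ¬ |P.1| ≤ |P.2|).card : ℝ) := by
    rw [← h3]; push_cast; ring
  rw [h4]
  have e : 8 * (B : ℝ) ^ 2 / q + 4 = 2 * (2 * (B : ℝ) ^ 2 / q + 1) + 2 * (2 * (B : ℝ) ^ 2 / q + 1) := by
    ring
  rw [e]
  exact add_le_add h1 h2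

/-- cross products with a coprime pair -/
theorem cr_trans {q : ℤ} {P P' R : ℤ × ℤ} (hR : IsCoprime R.1 R.2) (h : q ∣ cr P R)
    (h' : q ∣ cr P' R) : q ∣ cr P P' := by
  obtain ⟨x, y, hxy⟩ := hR
  have e : cr P P' = x * (R.1 * cr P P') + y * (R.2 * cr P P') := by
    linear_combination (-(cr P P')) * hxy
  have e1 : R.1 * cr P P' = P'.1 * cr P R - P.1 * cr P' R := by
    unfold cr; ring
  have e2 : R.2 * cr P P' = P'.2 * cr P R - P.2 * cr P' R := by
    unfold cr; ring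
  rw [e, e1, e2]
  refine dvd_add (Dvd.dvd.mul_left ?_ _) (Dvd.dvd.mul_left ?_ _)
  · exact dvd_sub (Dvd.dvd.mul_left h _) (Dvd.dvd.mul_left h' _)
  · exact dvd_sub (Dvd.dvd.mul_left h _) (Dvd.dvd.mul_left h' _)

/-- **few classes** -/
theorem classes_card {B q m : ℕ} (hq : 1 ≤ q) (A : Finset (ℤ × ℤ)) (hA : A ⊆ Box B)
    (hcl : ∀ v : Fin (m + 1) → ℤ × ℤ, (∀ i, v i ∈ A) → ∃ i j, i < j ∧ (q : ℤ) ∣ cr (v j) (v i)) :
    (A.card : ℝ) ≤ m * (8 * (B : ℝ) ^ 2 / q + 4) := by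
  classical
  -- a maximal set of inequivalent pairs
  obtain ⟨good, hgood⟩ : ∃ g : Finset (ℤ × ℤ) → Prop, ∀ M, g M ↔
    ∀ P ∈ M, ∀ P' ∈ M, P ≠ P' → ¬ (q : ℤ) ∣ cr P P' := ⟨_, fun _ => Iff.rfl⟩
  obtain ⟨M, hM, hmax⟩ := exists_max_image ((A.powerset).filter good) card
    ⟨∅, by rw [mem_filter, hgood]; simp⟩
  rw [mem_filter, mem_powerset, hgood] at hM
  obtain ⟨hMA, hMin⟩ := hM
  have hMcard : M.card ≤ m := by
    by_contra hcon
    push Not at hcon
    obtain ⟨M', hM', hc'⟩ := exists_subset_card_eq (s := M) (n := m + 1) hcon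
    let e := M'.equivFinOfCardEq hc'
    obtain ⟨i, j, hij, hd⟩ := hcl (fun i => (e.symm i : ℤ × ℤ)) fun i => hMA (hM' (e.symm i).2)
    refine hMin _ (hM' (e.symm j).2) _ (hM' (e.symm i).2) ?_ hd
    intro he
    have := e.symm.injective (Subtype.ext he)
    exact hij.ne this.symm
  have hcov : A ⊆ M.biUnion fun R => A.filter fun P => (q : ℤ) ∣ cr P R := by
    intro P hP
    rw [mem_biUnion]
    by_contra hcon
    push Not at hcon
    have hcon' : ∀ R ∈ M, ¬ (q : ℤ) ∣ cr P R := fun R hR hd =>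
      hcon R hR (mem_filter.mpr ⟨hP, hd⟩)
    have hPM : P ∉ M := by
      intro h
      refine hcon' P h ?_
      unfold cr
      rw [sub_self]
      exact dvd_zero _
    have h1 := hmax (insert P M) (by
      rw [mem_filter, mem_powerset, hgood]
      refine ⟨insert_subset hP hMA, ?_⟩
      intro R hR R' hR' hne
      rcases mem_insert.mp hR with h2 | h2
      · rcases mem_insert.mp hR' with h3 | h3
        · exact absurd (h2.trans h3.symm) hne
        · rw [h2]; exact hcon' R' h3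
      · rcases mem_insert.mp hR' with h3 | h3
        · intro hd
          refine hcon' R h2 ?_
          rw [h3] at hd
          have e : cr P R = -cr R P := by unfold cr; ring
          rw [e]
          exact dvd_neg.mpr hd
        · exact hMin R h2 R' h3 hne)
    rw [card_insert_of_notMem hPM] at h1
    omega
  calc (A.card : ℝ) ≤ ((M.biUnion fun R => A.filter fun P => (q : ℤ) ∣ cr P R).card : ℝ) := by
        exact_mod_cast card_le_card hcov
    _ ≤ ∑ R ∈ M, ((A.filter fun P => (q : ℤ) ∣ cr P R).card : ℝ) := by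
        exact_mod_cast card_biUnion_le
    _ ≤ ∑ _R ∈ M, (8 * (B : ℝ) ^ 2 / q + 4) := by
        refine sum_le_sum fun R hR => class_card hq _ ((filter_subset _ _).trans hA) ?_
        intro P hP P' hP'
        exact cr_trans (mem_Box.mp (hA (hMA hR))).2 (mem_filter.mp hP).2 (mem_filter.mp hP').2
    _ = M.card * (8 * (B : ℝ) ^ 2 / q + 4) := by rw [sum_const, nsmul_eq_mul]
    _ ≤ m * (8 * (B : ℝ) ^ 2 / q + 4) := by
        refine mul_le_mul_of_nonneg_right (by exact_mod_cast hMcard) (by positivity)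

end Pool.Agent.N365.SZ
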