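import Pool.Agent.N365.SZ.A
import Pool.Agent.Y670.RD.Clr

/-!
# Pairs at which a binary form is divisible by a prime power
-/

set_option autoImplicit false

namespace Pool.Agent.N365.SZ

open Finset Polynomial
open Pool.Agent.Y670.RD (fv toQ toQ_inj clr clr_dvd fv_mod fv_zero)

/-- **projective Vandermonde determinant** -/
theorem vdm {g : ℤ[X]} {m : ℤ} (v : Fin (g.natDegree + 1) → ℤ × ℤ)
    (h : ∀ i, m ∣ fv g.natDegree g (v i).1 (v i).2) :
    m ∣ g.leadingCoeff * ∏ i, ∏ j ∈ Ioi i, cr (v j) (v i) := by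
  set V := Matrix.projVandermonde (fun i => (v i).1) (fun i => (v i).2) with hV
  let c : Fin (g.natDegree + 1) → ℤ := fun j => g.coeff j
  have h1 : ∀ i, (V.mulVec c) i = fv g.natDegree g (v i).1 (v i).2 := by
    intro i
    unfold fv
    rw [← Fin.sum_univ_eq_sum_range (fun k => g.coeff k * (v i).1 ^ k * (v i).2 ^ (g.natDegree - k))
      (g.natDegree + 1)]
    show ∑ j, V i j * c j = _
    refine sum_congr rfl fun j _ => ?_
    rw [hV, Matrix.projVandermonde_apply, Fin.val_rev, Nat.add_sub_add_right]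
    ring
  have h2 : m ∣ V.det * c (Fin.last _) := by
    have h3 : (V.adjugate.mulVec (V.mulVec c)) = V.det • c := by
      rw [Matrix.mulVec_mulVec, Matrix.adjugate_mul, Matrix.smul_mulVec, Matrix.one_mulVec]
    have h4 := congrFun h3 (Fin.last _)
    rw [Pi.smul_apply, smul_eq_mul] at h4
    rw [← h4]
    show m ∣ ∑ i, V.adjugate (Fin.last _) i * (V.mulVec c) i
    refine dvd_sum fun i _ => ?_
    rw [h1]
    exact (h i).mul_left _
  have h5 : V.det = ∏ i, ∏ j ∈ Ioi i, cr (v j) (v i) := by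
    rw [hV, Matrix.det_projVandermonde]
    rfl
  rw [h5] at h2
  rw [mul_comm]
  exact h2

theorem pow_split {p : ℤ} (hp : Prime p) {m n : ℕ} {A B : ℤ} (h : p ^ (m + n) ∣ A * B)
    (hA : ¬ p ^ m ∣ A) : p ^ n ∣ B := by
  by_contra hB
  rw [pow_dvd_iff_le_emultiplicity] at h hA hB
  rw [emultiplicity_mul hp] at h
  push Not at hA hB
  obtain ⟨a, ha⟩ := ENat.ne_top_iff_exists.mp (ne_top_of_lt hA)
  obtain ⟨b, hb⟩ := ENat.ne_top_iff_exists.mp (ne_top_of_lt hB)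
  rw [← ha] at h hA
  rw [← hb] at h hB
  norm_cast at h hA hB
  omega

theorem pow_prod {ι : Type*} (s : Finset ι) (b : ι → ℤ) {p : ℤ} (hp : Prime p) {k' a' : ℕ} {a : ℤ}
    (ha : ¬ p ^ a' ∣ a) (hb : ∀ x ∈ s, ¬ p ^ k' ∣ b x) : ¬ p ^ (a' + s.card * k') ∣ a * ∏ x ∈ s, b x := by
  classical
  induction s using Finset.induction_on with
  | empty => simpa using ha
  | insert x s hx ih =>
    intro h
    rw [prod_insert hx, card_insert_of_notMem hx] at h
    have h1 : p ^ ((a' + s.card * k') + k') ∣ (a * ∏ x ∈ s, b x) * b x := by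
      have e : (a * ∏ x ∈ s, b x) * b x = a * (b x * ∏ x ∈ s, b x) := by ring
      rw [e]
      convert h using 2
      ring
    have h2 := pow_split hp h1 (ih fun y hy => hb y (mem_insert_of_mem hy))
    exact hb x (mem_insert_self _ _) h2

/-- the chart -/
theorem chart {p : ℕ} (hp : p.Prime) {t : ℤ} (ht : ¬ (p : ℤ) ∣ t) (k : ℕ) (s : ℤ) :
    ∃ x : ℤ, (p : ℤ) ^ k ∣ s - x * t := by
  have hpr : Prime (p : ℤ) := Nat.prime_iff_prime_int.mp hp
  obtain ⟨u, w, h⟩ : IsCoprime ((p : ℤ) ^ k) t :=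
    (hpr.irreducible.coprime_iff_not_dvd.mpr ht).pow_left
  exact ⟨s * w, ⟨s * u, by linear_combination (-s) * h⟩⟩

theorem fv_sub (N : ℕ) (f : ℤ[X]) (s s' t : ℤ) : s - s' ∣ fv N f s t - fv N f s' t := by
  unfold fv
  rw [← sum_sub_distrib]
  refine dvd_sum fun i _ => ?_
  have e : f.coeff i * s ^ i * t ^ (N - i) - f.coeff i * s' ^ i * t ^ (N - i) =
      (f.coeff i * t ^ (N - i)) * (s ^ i - s' ^ i) := by ring
  rw [e]
  exact (sub_dvd_pow_sub_pow s s' i).mul_left _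

theorem fv_mul_self {N : ℕ} {f : ℤ[X]} (hf : f.natDegree ≤ N) (x t : ℤ) :
    fv N f (x * t) t = t ^ N * f.eval x := by
  unfold fv
  rw [eval_eq_sum_range' (n := N + 1) (by omega), mul_sum]
  refine sum_congr rfl fun i hi => ?_
  have hi' : i ≤ N := by have := mem_range.mp hi; omega
  have e : t ^ N = t ^ i * t ^ (N - i) := by rw [← pow_add]; congr 1; omega
  rw [e, mul_pow]
  ring

theorem fv_chart {p : ℕ} (hp : p.Prime) {s t x : ℤ} (ht : ¬ (p : ℤ) ∣ t) {k j : ℕ}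
    (hx : (p : ℤ) ^ k ∣ s - x * t) (hj : j ≤ k) {N : ℕ} {f : ℤ[X]} (hf : f.natDegree ≤ N) :
    (p : ℤ) ^ j ∣ fv N f s t ↔ (p : ℤ) ^ j ∣ f.eval x := by
  have hpr : Prime (p : ℤ) := Nat.prime_iff_prime_int.mp hp
  have h1 : (p : ℤ) ^ j ∣ fv N f s t - t ^ N * f.eval x := by
    rw [← fv_mul_self hf]
    exact ((pow_dvd_pow _ hj).trans hx).trans (fv_sub N f s (x * t) t)
  have hc : IsCoprime ((p : ℤ) ^ j) (t ^ N) :=
    (hpr.irreducible.coprime_iff_not_dvd.mpr ht).pow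
  constructor
  · intro h
    have h2 : (p : ℤ) ^ j ∣ t ^ N * f.eval x := (dvd_sub_right h).mp h1
    exact hc.dvd_of_dvd_mul_left h2
  · intro h
    exact (dvd_sub_left (h.mul_left _)).mp h1

theorem cr_chart {p : ℕ} (hp : p.Prime) {P P' : ℤ × ℤ} {x x' : ℤ} (ht : ¬ (p : ℤ) ∣ P.2)
    (ht' : ¬ (p : ℤ) ∣ P'.2) {k j : ℕ} (hx : (p : ℤ) ^ k ∣ P.1 - x * P.2)
    (hx' : (p : ℤ) ^ k ∣ P'.1 - x' * P'.2) (hj : j ≤ k) :
    (p : ℤ) ^ j ∣ cr P P' ↔ (p : ℤ) ^ j ∣ x - x' := by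
  have hpr : Prime (p : ℤ) := Nat.prime_iff_prime_int.mp hp
  have h1 : (p : ℤ) ^ j ∣ cr P P' - (P.2 * P'.2) * (x - x') := by
    have e : cr P P' - (P.2 * P'.2) * (x - x') =
        P'.2 * (P.1 - x * P.2) - P.2 * (P'.1 - x' * P'.2) := by unfold cr; ring
    rw [e]
    exact dvd_sub (((pow_dvd_pow _ hj).trans hx).mul_left _)
      (((pow_dvd_pow _ hj).trans hx').mul_left _)
  have hc : IsCoprime ((p : ℤ) ^ j) (P.2 * P'.2) :=
    ((hpr.irreducible.coprime_iff_not_dvd.mpr ht).mul_right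
      (hpr.irreducible.coprime_iff_not_dvd.mpr ht')).pow_left
  constructor
  · intro h
    exact hc.dvd_of_dvd_mul_left ((dvd_sub_right h).mp h1)
  · intro h
    exact (dvd_sub_left (h.mul_left _)).mp h1

/-- Hensel -/
theorem hensel {p : ℕ} {f : ℤ[X]} {x x' : ℤ} (hp : p.Prime) (h1 : (p : ℤ) ^ 2 ∣ f.eval x)
    (h2 : (p : ℤ) ^ 2 ∣ f.eval x') (h3 : (p : ℤ) ∣ x - x')
    (h4 : ¬ (p : ℤ) ∣ f.derivative.eval x') : (p : ℤ) ^ 2 ∣ x - x' := by
  have hpr : Prime (p : ℤ) := Nat.prime_iff_prime_int.mp hp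
  obtain ⟨k, hk⟩ := f.binomExpansion x' (x - x')
  have e : x' + (x - x') = x := by ring
  rw [e] at hk
  have h5 : (p : ℤ) ^ 2 ∣ f.derivative.eval x' * (x - x') := by
    have e2 : f.derivative.eval x' * (x - x') = f.eval x - f.eval x' - k * (x - x') ^ 2 := by
      rw [hk]; ring
    rw [e2]
    exact dvd_sub (dvd_sub h1 h2) ((pow_dvd_pow_of_dvd h3 2).mul_left _)
  exact ((hpr.irreducible.coprime_iff_not_dvd.mpr h4).pow_left).dvd_of_dvd_mul_left h5

/-- a prime dividing the form but not the leading coefficient does not divide `t` -/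
theorem not_dvd_t {p : ℕ} (hp : p.Prime) {g : ℤ[X]} {P : ℤ × ℤ} (hc : IsCoprime P.1 P.2)
    (hlc : ¬ (p : ℤ) ∣ g.leadingCoeff) (h : (p : ℤ) ∣ fv g.natDegree g P.1 P.2) :
    ¬ (p : ℤ) ∣ P.2 := by
  have hpr : Prime (p : ℤ) := Nat.prime_iff_prime_int.mp hp
  intro ht
  have h1 := fv_mod g.natDegree g P.1 P.2
  have h2 : (p : ℤ) ∣ g.coeff g.natDegree * P.1 ^ g.natDegree := by
    have e : g.coeff g.natDegree * P.1 ^ g.natDegree = fv g.natDegree g P.1 P.2 -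
      (fv g.natDegree g P.1 P.2 - g.coeff g.natDegree * P.1 ^ g.natDegree) := by ring
    rw [e]
    exact dvd_sub h (ht.trans h1)
  rcases hpr.dvd_or_dvd h2 with h3 | h3
  · exact hlc h3
  · exact hpr.not_isUnit (hc.isUnit_of_dvd' (hpr.dvd_of_dvd_pow h3) ht)

/-- squares of large primes -/
theorem class_sq {p : ℕ} (hp : p.Prime) {g u w : ℤ[X]} {D : ℤ}
    (hD : C D = u * g + w * g.derivative) (hpD : ¬ (p : ℤ) ∣ D)
    (hlc : ¬ (p : ℤ) ∣ g.leadingCoeff) (v : Fin (g.natDegree + 1) → ℤ × ℤ)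
    (hv : ∀ i, IsCoprime (v i).1 (v i).2)
    (h : ∀ i, (p : ℤ) ^ 2 ∣ fv g.natDegree g (v i).1 (v i).2) :
    ∃ i j, i < j ∧ (p : ℤ) ^ 2 ∣ cr (v j) (v i) := by
  have hpr : Prime (p : ℤ) := Nat.prime_iff_prime_int.mp hp
  have h1 : ∀ i, (p : ℤ) ∣ fv g.natDegree g (v i).1 (v i).2 := fun i =>
    (dvd_pow_self _ two_ne_zero).trans (h i)
  have hvd := vdm v h1
  obtain ⟨i, j, hij, hd⟩ : ∃ i j, i < j ∧ (p : ℤ) ∣ cr (v j) (v i) := by
    rcases hpr.dvd_or_dvd hvd with h2 | h2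
    · exact absurd h2 hlc
    · obtain ⟨i, -, h3⟩ := (Prime.dvd_finsetProd_iff hpr _).mp h2
      obtain ⟨j, h4, h5⟩ := (Prime.dvd_finsetProd_iff hpr _).mp h3
      exact ⟨i, j, mem_Ioi.mp h4, h5⟩
  refine ⟨i, j, hij, ?_⟩
  have ti := not_dvd_t hp (hv i) hlc (h1 i)
  have tj := not_dvd_t hp (hv j) hlc (h1 j)
  obtain ⟨x, hx⟩ := chart hp ti 2 (v i).1
  obtain ⟨y, hy⟩ := chart hp tj 2 (v j).1
  rw [cr_chart hp tj ti hy hx le_rfl]
  have hd' : (p : ℤ) ^ 1 ∣ cr (v j) (v i) := by rwa [pow_one]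
  rw [cr_chart hp tj ti hy hx (by norm_num), pow_one] at hd'
  have ex := (fv_chart hp ti hx le_rfl le_rfl).mp (h i)
  have ey := (fv_chart hp tj hy le_rfl le_rfl).mp (h j)
  refine hensel hp ey ex hd' ?_
  intro hder
  apply hpD
  have h6 := congrArg (eval x) hD
  rw [eval_C, eval_add, eval_mul, eval_mul] at h6
  rw [h6]
  exact dvd_add (((dvd_pow_self _ two_ne_zero).trans ex).mul_left _) (hder.mul_left _)

theorem card_sq {p : ℕ} (hp : p.Prime) {g u w : ℤ[X]} {D : ℤ}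
    (hD : C D = u * g + w * g.derivative) (hpD : ¬ (p : ℤ) ∣ D)
    (hlc : ¬ (p : ℤ) ∣ g.leadingCoeff) (B : ℕ) :
    (((Box B).filter fun P => (p : ℤ) ^ 2 ∣ fv g.natDegree g P.1 P.2).card : ℝ) ≤
      g.natDegree * (8 * (B : ℝ) ^ 2 / (p : ℝ) ^ 2 + 4) := by
  classical
  have h := classes_card (B := B) (q := p ^ 2) (m := g.natDegree) (Nat.one_le_pow _ _ hp.pos)
    ((Box B).filter fun P => (p : ℤ) ^ 2 ∣ fv g.natDegree g P.1 P.2) (filter_subset _ _) (by
      intro v hv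
      obtain ⟨i, j, hij, hd⟩ := class_sq hp hD hpD hlc v
        (fun i => (mem_Box.mp (mem_filter.mp (hv i)).1).2) fun i => (mem_filter.mp (hv i)).2
      exact ⟨i, j, hij, by push_cast; exact hd⟩)
  push_cast at h
  exact h

/-- high powers of small primes -/
theorem card_pow {p : ℕ} (hp : p.Prime) {g : ℤ[X]} (hg : g ≠ 0) (k' : ℕ) :
    ∃ k : ℕ, ∀ B : ℕ,
      (((Box B).filter fun P => (p : ℤ) ^ k ∣ fv g.natDegree g P.1 P.2).card : ℝ) ≤
        g.natDegree * (8 * (B : ℝ) ^ 2 / (p : ℝ) ^ k' + 4) := by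
  classical
  have hpr : Prime (p : ℤ) := Nat.prime_iff_prime_int.mp hp
  have hlc : g.leadingCoeff ≠ 0 := leadingCoeff_ne_zero.mpr hg
  obtain ⟨a', ha'⟩ : ∃ a' : ℕ, ¬ (p : ℤ) ^ a' ∣ g.leadingCoeff := by
    have hfin : FiniteMultiplicity (p : ℤ) g.leadingCoeff :=
      FiniteMultiplicity.of_prime_left hpr hlc
    obtain ⟨n, hn⟩ := hfin
    exact ⟨n + 1, hn⟩
  let I : Finset (Fin (g.natDegree + 1) × Fin (g.natDegree + 1)) :=
    univ.filter fun x => x.1 < x.2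
  refine ⟨a' + I.card * k', fun B => ?_⟩
  have h := classes_card (B := B) (q := p ^ k') (m := g.natDegree) (Nat.one_le_pow _ _ hp.pos)
    ((Box B).filter fun P => (p : ℤ) ^ (a' + I.card * k') ∣ fv g.natDegree g P.1 P.2)
    (filter_subset _ _) (by
      intro v hv
      by_contra hcon
      push Not at hcon
      have hvd := vdm v fun i => (mem_filter.mp (hv i)).2
      have e : (∏ i, ∏ j ∈ Ioi i, cr (v j) (v i)) = ∏ x ∈ I, cr (v x.2) (v x.1) := by
        rw [prod_filter, ← univ_product_univ, prod_product]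
        refine prod_congr rfl fun i _ => ?_
        rw [← prod_filter]
        congr 1
        ext j
        simp
      rw [e] at hvd
      refine pow_prod I (fun x => cr (v x.2) (v x.1)) hpr ha' ?_ hvd
      intro x hx
      have := hcon x.1 x.2 (mem_filter.mp hx).2
      push_cast at this
      exact this)
  push_cast at h
  exact h

end Pool.Agent.N365.SZ
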