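import Pool.Agent.N365.SZ.B

/-!
# Small values of a binary form, and sums over primes
-/

set_option autoImplicit false

namespace Pool.Agent.N365.SZ

open Finset Polynomial Filter
open Pool.Agent.Y670.RD (fv fv_eq toQ toQ_inj clr clr_dvd fv_mod fv_zero)

/-- integers near a real number -/
theorem near_card (y r : ℝ) (hr : 0 ≤ r) : ((Icc ⌈y - r⌉ ⌊y + r⌋).card : ℝ) ≤ 2 * r + 1 := by
  rw [Int.card_Icc]
  have h1 := Int.le_ceil (y - r)
  have h2 := Int.floor_le (y + r)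
  rcases le_or_gt 0 (⌊y + r⌋ + 1 - ⌈y - r⌉) with h | h
  · have h3 : (((⌊y + r⌋ + 1 - ⌈y - r⌉).toNat : ℤ) : ℝ) = ((⌊y + r⌋ + 1 - ⌈y - r⌉ : ℤ) : ℝ) := by
      rw [Int.toNat_of_nonneg h]
    have h4 : (((⌊y + r⌋ + 1 - ⌈y - r⌉).toNat : ℕ) : ℝ) = ((⌊y + r⌋ + 1 - ⌈y - r⌉ : ℤ) : ℝ) := by
      rw [← h3]; norm_cast
    rw [h4]
    push_cast
    linarith
  · rw [Int.toNat_of_nonpos h.le, Nat.cast_zero]
    linarith

/-- pairs near a line -/
theorem line_card (B : ℕ) (β r : ℝ) (hr : 0 ≤ r) :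
    ∃ E : Finset (ℤ × ℤ), (E.card : ℝ) ≤ (2 * B + 1) * (2 * r + 1) ∧
      ∀ P ∈ Box B, |(P.1 : ℝ) - β * P.2| < r → P ∈ E := by
  classical
  refine ⟨(Icc (-(B : ℤ)) B).biUnion fun t =>
    (Icc ⌈β * t - r⌉ ⌊β * t + r⌋).image fun s => (s, t), ?_, ?_⟩
  · calc ((((Icc (-(B : ℤ)) B).biUnion fun t =>
          (Icc ⌈β * t - r⌉ ⌊β * t + r⌋).image fun s => (s, t)).card : ℕ) : ℝ)
        ≤ ∑ t ∈ Icc (-(B : ℤ)) B, ((((Icc ⌈β * t - r⌉ ⌊β * t + r⌋).image
          fun s => (s, t)).card : ℕ) : ℝ) := by exact_mod_cast card_biUnion_le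
      _ ≤ ∑ _t ∈ Icc (-(B : ℤ)) B, (2 * r + 1) := by
          refine sum_le_sum fun t _ => ?_
          refine le_trans ?_ (near_card (β * t) r hr)
          exact_mod_cast card_image_le
      _ = (2 * B + 1) * (2 * r + 1) := by
          rw [sum_const, Int.card_Icc, nsmul_eq_mul]
          have e : ((B : ℤ) + 1 - -(B : ℤ)).toNat = 2 * B + 1 := by omega
          rw [e]
          push_cast
          ring
  · intro P hP hlt
    rw [mem_biUnion]
    have h1 := (mem_Box.mp hP).1.2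
    rw [abs_le] at h1
    refine ⟨P.2, mem_Icc.mpr h1, ?_⟩
    rw [mem_image]
    refine ⟨P.1, ?_, rfl⟩
    rw [abs_lt] at hlt
    rw [mem_Icc]
    constructor
    · rw [Int.ceil_le]; linarith
    · rw [Int.le_floor]; linarith

theorem ms_prod (m : Multiset ℂ) (s t : ℂ) (ht : t ≠ 0) :
    (m.map fun α => s - α * t).prod = t ^ m.card * (m.map fun α => s / t - α).prod := by
  induction m using Multiset.induction_on with
  | empty => simp
  | cons a m ih =>
    rw [Multiset.map_cons, Multiset.prod_cons, Multiset.map_cons, Multiset.prod_cons, ih,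
      Multiset.card_cons, pow_succ]
    have : s - a * t = t * (s / t - a) := by field_simp
    rw [this]
    ring

theorem ms_norm (m : Multiset ℂ) (φ : ℂ → ℂ) (ρ : ℝ) (hρ : 0 ≤ ρ) (h : ∀ α ∈ m, ρ ≤ ‖φ α‖) :
    ρ ^ m.card ≤ ‖(m.map φ).prod‖ := by
  induction m using Multiset.induction_on with
  | empty => simp
  | cons a m ih =>
    rw [Multiset.map_cons, Multiset.prod_cons, Multiset.card_cons, pow_succ, norm_mul, mul_comm]
    exact mul_le_mul (h a (Multiset.mem_cons_self _ _))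
      (ih fun α hα => h α (Multiset.mem_cons_of_mem hα)) (by positivity) (norm_nonneg _)

/-- the roots -/
theorem small_root {f : ℤ[X]} (hf : f ≠ 0) {s t : ℤ} (ht : t ≠ 0) {ρ : ℝ} (hρ : 0 ≤ ρ)
    (h : |(fv f.natDegree f s t : ℝ)| < ρ ^ f.natDegree) :
    ∃ α ∈ (f.map (Int.castRingHom ℂ)).roots, |(s : ℝ) - α.re * t| < ρ := by
  have hinj : Function.Injective (Int.castRingHom ℂ) := Int.cast_injective
  have hsp : (f.map (Int.castRingHom ℂ)).Splits := IsAlgClosed.splits _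
  have hcard : (f.map (Int.castRingHom ℂ)).roots.card = f.natDegree := by
    rw [← hsp.natDegree_eq_card_roots, natDegree_map_eq_of_injective hinj]
  by_contra hcon
  push Not at hcon
  have htC : ((t : ℤ) : ℂ) ≠ 0 := by exact_mod_cast ht
  have h1 : ((fv f.natDegree f s t : ℤ) : ℂ) = (f.leadingCoeff : ℂ) *
      ((f.map (Int.castRingHom ℂ)).roots.map fun α => (s : ℂ) - α * t).prod := by
    rw [fv_eq (K := ℂ) le_rfl htC]
    have h2 : aeval ((s : ℂ) / t) f = (f.map (Int.castRingHom ℂ)).eval ((s : ℂ) / t) := by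
      rw [eval_map, aeval_def]
      rfl
    rw [h2, hsp.eval_eq_prod_roots, leadingCoeff_map_of_injective hinj, ms_prod _ _ _ htC, hcard]
    simp only [eq_intCast]
    ring
  have h2 : ρ ^ f.natDegree ≤
      ‖((f.map (Int.castRingHom ℂ)).roots.map fun α => (s : ℂ) - α * t).prod‖ := by
    rw [← hcard]
    refine ms_norm _ _ ρ hρ fun α hα => (hcon α hα).trans ?_
    have h3 : ((s : ℂ) - α * t).re = (s : ℝ) - α.re * t := by
      simp
    rw [← h3]
    exact Complex.abs_re_le_norm _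
  have h3 : |(fv f.natDegree f s t : ℝ)| = ‖((fv f.natDegree f s t : ℤ) : ℂ)‖ := by
    rw [Complex.norm_intCast]
  rw [h3, h1, norm_mul, Complex.norm_intCast] at h
  have h4 : (1 : ℝ) ≤ |((f.leadingCoeff : ℤ) : ℝ)| := by
    have : 1 ≤ |f.leadingCoeff| := Int.one_le_abs (leadingCoeff_ne_zero.mpr hf)
    exact_mod_cast this
  have h5 : ρ ^ f.natDegree ≤ |((f.leadingCoeff : ℤ) : ℝ)| *
      ‖((f.map (Int.castRingHom ℂ)).roots.map fun α => (s : ℂ) - α * t).prod‖ :=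
    h2.trans (le_mul_of_one_le_left (norm_nonneg _) h4)
  linarith

/-- **few small values** -/
theorem card_small {f : ℤ[X]} (hf : f ≠ 0) (δ : ℝ) (hδ : 0 < δ) :
    ∃ τ : ℝ, 0 < τ ∧ ∀ᶠ B : ℕ in atTop,
      (((Box B).filter fun P => P.2 ≠ 0 ∧ |(fv f.natDegree f P.1 P.2 : ℝ)| <
        τ * (B : ℝ) ^ f.natDegree).card : ℝ) ≤ δ * (B : ℝ) ^ 2 := by
  classical
  obtain ⟨R, hR⟩ : ∃ R : Finset ℂ, R = (f.map (Int.castRingHom ℂ)).roots.toFinset := ⟨_, rfl⟩
  obtain ⟨K, hK⟩ : ∃ K : ℝ, K = (R.card : ℝ) + 1 := ⟨_, rfl⟩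
  have hK1 : 1 ≤ K := by rw [hK]; have := Nat.cast_nonneg (α := ℝ) R.card; linarith
  -- `σ` is the relative width
  obtain ⟨σ, hσ⟩ : ∃ σ : ℝ, σ = δ / (12 * K) := ⟨_, rfl⟩
  have hσ0 : 0 < σ := by rw [hσ]; positivity
  refine ⟨σ ^ f.natDegree, by positivity, ?_⟩
  filter_upwards [eventually_ge_atTop 1, eventually_ge_atTop ⌈1 / σ⌉₊] with B hB1 hB2
  have hB : (1 : ℝ) ≤ B := by exact_mod_cast hB1
  have hB' : 1 ≤ σ * B := by
    have h1 : 1 / σ ≤ B := (Nat.le_ceil _).trans (by exact_mod_cast hB2)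
    rw [div_le_iff₀ hσ0] at h1
    linarith
  choose E hE1 hE2 using fun β : ℝ => line_card B β (σ * B) (by positivity)
  have hsub : ((Box B).filter fun P => P.2 ≠ 0 ∧ |(fv f.natDegree f P.1 P.2 : ℝ)| <
        σ ^ f.natDegree * (B : ℝ) ^ f.natDegree) ⊆ R.biUnion fun α => E α.re := by
    intro P hP
    rw [mem_filter, ← mul_pow] at hP
    obtain ⟨α, hα, h⟩ := small_root hf hP.2.1 (by positivity) hP.2.2
    rw [mem_biUnion]
    exact ⟨α, by rw [hR, Multiset.mem_toFinset]; exact hα, hE2 _ P hP.1 h⟩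
  calc _ ≤ (((R.biUnion fun α => E α.re).card : ℕ) : ℝ) := by exact_mod_cast card_le_card hsub
    _ ≤ ∑ α ∈ R, ((E α.re).card : ℝ) := by exact_mod_cast card_biUnion_le
    _ ≤ ∑ _α ∈ R, ((2 * B + 1) * (2 * (σ * B) + 1) : ℝ) := sum_le_sum fun α _ => hE1 _
    _ = R.card * ((2 * B + 1) * (2 * (σ * B) + 1)) := by rw [sum_const, nsmul_eq_mul]
    _ ≤ K * ((3 * B) * (3 * (σ * B))) := by
        refine mul_le_mul (by rw [hK]; linarith) ?_ (by positivity) (by linarith)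
        exact mul_le_mul (by linarith) (by linarith) (by positivity) (by positivity)
    _ = (9 * (K * σ)) * (B : ℝ) ^ 2 := by ring
    _ ≤ δ * (B : ℝ) ^ 2 := by
        refine mul_le_mul_of_nonneg_right ?_ (by positivity)
        have : K * σ = δ / 12 := by rw [hσ]; field_simp
        rw [this]; linarith

/-- pairs with `t = 0` -/
theorem card_zero (δ : ℝ) (hδ : 0 < δ) : ∀ᶠ B : ℕ in atTop,
    (((Box B).filter fun P => P.2 = 0).card : ℝ) ≤ δ * (B : ℝ) ^ 2 := by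
  classical
  filter_upwards [eventually_ge_atTop 1, eventually_ge_atTop ⌈3 / δ⌉₊] with B hB1 hB2
  have hB : (1 : ℝ) ≤ B := by exact_mod_cast hB1
  have h1 : 3 ≤ δ * B := by
    have h1 : 3 / δ ≤ B := (Nat.le_ceil _).trans (by exact_mod_cast hB2)
    rw [div_le_iff₀ hδ] at h1
    linarith
  have hsub : ((Box B).filter fun P => P.2 = 0) ⊆ (Icc (-(B : ℤ)) B).image fun s => (s, (0 : ℤ)) := by
    intro P hP
    rw [mem_filter] at hP
    have h2 := (mem_Box.mp hP.1).1.1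
    rw [abs_le] at h2
    rw [mem_image]
    exact ⟨P.1, mem_Icc.mpr h2, Prod.ext rfl hP.2.symm⟩
  calc _ ≤ ((((Icc (-(B : ℤ)) B).image fun s => (s, (0 : ℤ))).card : ℕ) : ℝ) := by
        exact_mod_cast card_le_card hsub
    _ ≤ (((Icc (-(B : ℤ)) B).card : ℕ) : ℝ) := by exact_mod_cast card_image_le
    _ = 2 * B + 1 := by
        rw [Int.card_Icc]
        have e : ((B : ℤ) + 1 - -(B : ℤ)).toNat = 2 * B + 1 := by omega
        rw [e]; push_cast; ring
    _ ≤ 3 * B := by linarith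
    _ ≤ (δ * B) * B := mul_le_mul_of_nonneg_right h1 (by positivity)
    _ = _ := by ring

/-- **few primes** -/
theorem pi_small (c δ : ℝ) (hc : 0 < c) (hδ : 0 < δ) : ∀ᶠ B : ℕ in atTop,
    (Nat.primeCounting ⌊c * (B : ℝ) ^ 2⌋₊ : ℝ) ≤ δ * (B : ℝ) ^ 2 := by
  have h1 := Chebyshev.eventually_primeCounting_le one_pos
  have h2 : Tendsto (fun B : ℕ => c * (B : ℝ) ^ 2) atTop atTop :=
    ((tendsto_pow_atTop two_ne_zero).comp tendsto_natCast_atTop_atTop).const_mul_atTop hc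
  have h3 : Tendsto (fun B : ℕ => Real.log (c * (B : ℝ) ^ 2)) atTop atTop :=
    Real.tendsto_log_atTop.comp h2
  filter_upwards [h2.eventually h1, h3.eventually_ge_atTop ((Real.log 4 + 1) * c / δ),
    h3.eventually_ge_atTop 1] with B h4 h5 h6
  refine h4.trans ?_
  have h7 : (0 : ℝ) < Real.log (c * (B : ℝ) ^ 2) := by linarith
  rw [div_le_iff₀ h7]
  rw [div_le_iff₀ hδ] at h5
  have h8 : (0 : ℝ) ≤ (B : ℝ) ^ 2 := by positivity
  nlinarith

/-- the sum over the large primes -/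
theorem sum_primes (z Y : ℕ) (hz : 1 ≤ z) (K b : ℝ) (hK : 0 ≤ K) (hb : 0 ≤ b) :
    ∑ p ∈ (Ioc z Y).filter Nat.Prime, K * (8 * b / (p : ℝ) ^ 2 + 4) ≤
      K * (8 * b / z) + K * 4 * Nat.primeCounting Y := by
  classical
  have h0 : ∀ p ∈ (Ioc z Y).filter Nat.Prime, K * (8 * b / (p : ℝ) ^ 2 + 4) =
      (K * 8 * b) * ((p : ℝ) ^ 2)⁻¹ + K * 4 := fun p _ => by rw [div_eq_mul_inv]; ring
  rw [sum_congr rfl h0, sum_add_distrib, ← mul_sum, sum_const, nsmul_eq_mul]
  have h1 : ∑ p ∈ (Ioc z Y).filter Nat.Prime, ((p : ℝ) ^ 2)⁻¹ ≤ (z : ℝ)⁻¹ := by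
    refine (sum_le_sum_of_subset_of_nonneg (filter_subset _ _) fun i _ _ => by positivity).trans ?_
    rcases le_or_gt z Y with h | h
    · refine (sum_Ioc_inv_sq_le_sub (by omega) h).trans ?_
      have : (0 : ℝ) ≤ (Y : ℝ)⁻¹ := by positivity
      linarith
    · rw [Ioc_eq_empty (by omega), sum_empty]
      positivity
  have h2 : (((Ioc z Y).filter Nat.Prime).card : ℝ) ≤ Nat.primeCounting Y := by
    have : ((Ioc z Y).filter Nat.Prime).card ≤ Nat.primeCounting Y := by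
      rw [Nat.primeCounting, Nat.primeCounting', Nat.count_eq_card_filter_range]
      refine card_le_card ?_
      intro p hp
      rw [mem_filter, mem_Ioc] at hp
      rw [mem_filter, mem_range]
      exact ⟨by omega, hp.2⟩
    exact_mod_cast this
  have h3 : K * 8 * b * ∑ p ∈ (Ioc z Y).filter Nat.Prime, ((p : ℝ) ^ 2)⁻¹ ≤
      K * 8 * b * (z : ℝ)⁻¹ := mul_le_mul_of_nonneg_left h1 (by positivity)
  have h4 : (((Ioc z Y).filter Nat.Prime).card : ℝ) * (K * 4) ≤ Nat.primeCounting Y * (K * 4) :=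
    mul_le_mul_of_nonneg_right h2 (by positivity)
  have e : K * (8 * b / z) = K * 8 * b * (z : ℝ)⁻¹ := by rw [div_eq_mul_inv]; ring
  rw [e]
  linarith

end Pool.Agent.N365.SZ
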