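import Pool.Agent.N365.SZ.C1
import Pool.Agent.Y679.Md.Up

/-!
# The factors of a squarefree binary form
-/

set_option autoImplicit false

namespace Pool.Agent.N365.SZ

open Finset Polynomial Filter UniqueFactorizationMonoid
open Pool.Agent.Y670.RD (fv fvq fv_eq fv_le fv_mul toQ toQ_inj clr clr_dvd fv_mod fv_zero gp excess gp_eq)
open Pool.Agent.Y679.Md (rS rS_pos mx)

theorem toQ_C (k : ℤ) : toQ (C k) = C (k : ℚ) := by
  unfold toQ
  rw [map_C]
  rfl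

theorem toQ_mul (f h : ℤ[X]) : toQ (f * h) = toQ f * toQ h := Polynomial.map_mul _

theorem toQ_add (f h : ℤ[X]) : toQ (f + h) = toQ f + toQ h := Polynomial.map_add _

theorem toQ_prod {ι : Type*} (s : Finset ι) (f : ι → ℤ[X]) :
    toQ (∏ i ∈ s, f i) = ∏ i ∈ s, toQ (f i) := Polynomial.map_prod _ _ _

theorem toQ_deg (f : ℤ[X]) : (toQ f).natDegree = f.natDegree :=
  natDegree_map_eq_of_injective Int.cast_injective f

/-- Bezout over `ℤ` -/
theorem bezZ {f1 f2 : ℤ[X]} (h : IsCoprime (toQ f1) (toQ f2)) :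
    ∃ (R : ℤ) (u w : ℤ[X]), R ≠ 0 ∧ C R = u * f1 + w * f2 := by
  obtain ⟨a, b, hab⟩ := h
  obtain ⟨ma, A, hma, hA⟩ := clr a
  obtain ⟨mb, B, hmb, hB⟩ := clr b
  refine ⟨ma * mb, C mb * A, C ma * B, mul_ne_zero hma hmb, toQ_inj ?_⟩
  rw [toQ_C, toQ_add, toQ_mul, toQ_mul, toQ_mul, toQ_mul, toQ_C, toQ_C, hA, hB]
  push_cast
  rw [C_mul]
  linear_combination (-(C (ma : ℚ) * C (mb : ℚ))) * hab

theorem bez_der {g : ℤ[X]} (hsq : Squarefree (toQ g)) :
    ∃ (R : ℤ) (u w : ℤ[X]), R ≠ 0 ∧ C R = u * g + w * g.derivative := by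
  refine bezZ ?_
  have h := PerfectField.separable_iff_squarefree.mpr hsq
  have e : toQ g.derivative = (toQ g).derivative := by
    unfold toQ
    rw [derivative_map]
  rw [e]
  exact h

/-- **the factors** -/
theorem fac {g : ℤ[X]} (hg : g ≠ 0) (hsq : Squarefree (toQ g)) :
    ∃ (F : Finset ℚ[X]) (gi : ℚ[X] → ℤ[X]) (m m' : ℤ),
      F.val = normalizedFactors (toQ g) ∧ m ≠ 0 ∧ m' ≠ 0 ∧
      (∀ π ∈ F, gi π ≠ 0 ∧ (gi π).natDegree = π.natDegree ∧ 1 ≤ π.natDegree) ∧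
      C m * g = C m' * ∏ π ∈ F, gi π ∧
      ∀ π ∈ F, ∀ π' ∈ F, π ≠ π' → ∃ (R : ℤ) (u w : ℤ[X]), R ≠ 0 ∧ C R = u * gi π + w * gi π' := by
  classical
  have hg' : toQ g ≠ 0 := by
    intro h
    exact hg (toQ_inj (by rw [h]; unfold toQ; simp))
  have hnd : (normalizedFactors (toQ g)).Nodup := (squarefree_iff_nodup_normalizedFactors hg').mp hsq
  obtain ⟨F, hF⟩ : ∃ F : Finset ℚ[X], F.val = normalizedFactors (toQ g) := ⟨⟨_, hnd⟩, rfl⟩
  have hmem : ∀ π ∈ F, π ∈ normalizedFactors (toQ g) := fun π hπ => by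
    rw [← hF]; exact hπ
  choose mm QQ hm hQ using clr
  have hirr : ∀ π ∈ F, Irreducible π := fun π hπ => irreducible_of_normalized_factor π (hmem π hπ)
  obtain ⟨u, hu⟩ := prod_normalizedFactors hg'
  obtain ⟨c, hc, hcu⟩ := Polynomial.isUnit_iff.mp u.isUnit
  have hprod : toQ g = C c * ∏ π ∈ F, π := by
    rw [← hu, ← hcu, ← hF]
    have : F.val.prod = ∏ π ∈ F, π := by
      rw [Finset.prod]
      simp
    rw [this, mul_comm]
  have hc0 : c ≠ 0 := hc.ne_zero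
  refine ⟨F, QQ, (∏ π ∈ F, mm π) * c.den, c.num, hF, ?_, Rat.num_ne_zero.mpr hc0, ?_, ?_, ?_⟩
  · exact mul_ne_zero (prod_ne_zero_iff.mpr fun π _ => hm π) (by exact_mod_cast c.den_nz)
  · intro π hπ
    have h1 : C ((mm π : ℤ) : ℚ) * π ≠ 0 :=
      mul_ne_zero (C_ne_zero.mpr (by exact_mod_cast hm π)) (hirr π hπ).ne_zero
    refine ⟨?_, ?_, ?_⟩
    · intro h0
      apply h1
      rw [← hQ π, h0]
      unfold toQ; simp
    · rw [← toQ_deg, hQ π, natDegree_C_mul (by exact_mod_cast hm π)]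
    · exact (hirr π hπ).natDegree_pos
  · apply toQ_inj
    rw [toQ_mul, toQ_mul, toQ_C, toQ_C, toQ_prod, hprod]
    have e1 : ∏ π ∈ F, toQ (QQ π) = C (((∏ π ∈ F, mm π : ℤ)) : ℚ) * ∏ π ∈ F, π := by
      rw [prod_congr rfl fun π _ => hQ π, prod_mul_distrib]
      congr 1
      push_cast
      rw [map_prod]
    rw [e1]
    have e2 : (c.num : ℚ) = c * c.den := by rw [Rat.mul_den_eq_num]
    rw [e2]
    push_cast
    rw [C_mul, C_mul]
    ring
  · intro π hπ π' hπ' hne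
    apply bezZ
    rw [hQ, hQ]
    have hu1 : IsUnit (C ((mm π : ℤ) : ℚ)) := isUnit_C.mpr (isUnit_iff_ne_zero.mpr (by exact_mod_cast hm π))
    have hu2 : IsUnit (C ((mm π' : ℤ) : ℚ)) :=
      isUnit_C.mpr (isUnit_iff_ne_zero.mpr (by exact_mod_cast hm π'))
    rw [isCoprime_mul_unit_left_left hu1, isCoprime_mul_unit_left_right hu2]
    rw [(hirr π hπ).coprime_iff_not_dvd]
    intro hd
    apply hne
    have h1 : Associated π π' := (hirr π hπ).associated_of_dvd (hirr π' hπ') hd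
    have h2 := normalize_normalized_factor π (hmem π hπ)
    have h3 := normalize_normalized_factor π' (hmem π' hπ')
    rw [← h2, ← h3]
    exact normalize_eq_normalize_iff_associated.mpr h1

theorem fv_C (N : ℕ) (m : ℤ) (f : ℤ[X]) (s t : ℤ) : fv N (C m * f) s t = m * fv N f s t := by
  unfold fv
  rw [mul_sum]
  refine sum_congr rfl fun i _ => ?_
  rw [coeff_C_mul]
  ring

theorem fv_one (s t : ℤ) : fv 0 1 s t = 1 := by
  unfold fv
  simp

theorem fv_prod {ι : Type*} (F : Finset ι) (f : ι → ℤ[X]) (s t : ℤ) (ht : t ≠ 0) :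
    fv (∑ i ∈ F, (f i).natDegree) (∏ i ∈ F, f i) s t = ∏ i ∈ F, fv (f i).natDegree (f i) s t := by
  classical
  induction F using Finset.induction_on with
  | empty => simpa using fv_one s t
  | insert a F ha ih =>
    rw [sum_insert ha, prod_insert ha, prod_insert ha,
      fv_mul le_rfl (natDegree_prod_le F f) ht, ih]

/-- the product formula -/
theorem fv_fac {g : ℤ[X]} {F : Finset ℚ[X]} {gi : ℚ[X] → ℤ[X]} {m m' : ℤ} (hm : m ≠ 0)
    (hm' : m' ≠ 0) (hgi : ∀ π ∈ F, gi π ≠ 0) (h : C m * g = C m' * ∏ π ∈ F, gi π) {s t : ℤ}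
    (ht : t ≠ 0) : m * fv g.natDegree g s t = m' * ∏ π ∈ F, fv (gi π).natDegree (gi π) s t := by
  have h1 : g.natDegree = ∑ π ∈ F, (gi π).natDegree := by
    rw [← natDegree_C_mul (p := g) hm, h, natDegree_C_mul hm',
      natDegree_prod _ _ hgi]
  rw [← fv_prod F gi s t ht, ← h1, ← fv_C, ← fv_C, h]

theorem prod_sq {ι : Type*} (F : Finset ι) (b : ι → ℤ) {p : ℤ} (hp : Prime p)
    (hd : p ^ 2 ∣ ∏ i ∈ F, b i) (hne : ∀ i ∈ F, ∀ j ∈ F, i ≠ j → p ∣ b i → ¬ p ∣ b j) :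
    ∃ i ∈ F, p ^ 2 ∣ b i := by
  classical
  have h1 : p ∣ ∏ i ∈ F, b i := (dvd_pow_self _ two_ne_zero).trans hd
  obtain ⟨i, hi, h2⟩ := (Prime.dvd_finsetProd_iff hp _).mp h1
  refine ⟨i, hi, ?_⟩
  rw [← mul_prod_erase F b hi] at hd
  have h3 : ¬ p ∣ ∏ j ∈ F.erase i, b j := by
    rw [Prime.dvd_finsetProd_iff hp]
    rintro ⟨j, hj, h4⟩
    rw [mem_erase] at hj
    exact hne i hi j hj.2 (Ne.symm hj.1) h2 h4
  exact ((hp.irreducible.coprime_iff_not_dvd.mpr h3).pow_left).dvd_of_dvd_mul_right hd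

/-- the part of `y` in `S` is bounded -/
theorem gp_ge {S : Finset ℕ} {y : ℕ} (hy : y ≠ 0) (hS : ∀ p ∈ S, p.Prime) (k : ℕ → ℕ)
    (hk : ∀ p ∈ S, ¬ p ^ k p ∣ y) : y ≤ (∏ p ∈ S, p ^ k p) * gp S y := by
  classical
  have h1 : y = (∏ p ∈ y.primeFactors ∩ S, p ^ y.factorization p) * gp S y := by
    unfold gp
    rw [prod_inter_mul_prod_sdiff]
    conv_lhs => rw [← Nat.prod_factorization_pow_eq_self hy,
      Nat.prod_factorization_eq_prod_primeFactors]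
  conv_lhs => rw [h1]
  refine Nat.mul_le_mul_right _ ?_
  refine le_trans (b := ∏ p ∈ y.primeFactors ∩ S, p ^ k p) (prod_le_prod' fun p hp => ?_)
    (prod_le_prod_of_subset_of_one_le' inter_subset_right fun p hp _ =>
      Nat.one_le_pow _ _ (hS p hp).pos)
  rw [mem_inter] at hp
  refine Nat.pow_le_pow_right (hS p hp.2).pos ?_
  by_contra hcon
  push Not at hcon
  exact hk p hp.2 (((hS p hp.2).pow_dvd_iff_le_factorization hy).mpr hcon.le)

theorem gp_rS {S : Finset ℕ} {y : ℕ} (hy : y ≠ 0)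
    (h : ∀ p : ℕ, p.Prime → p ∉ S → ¬ p ^ 2 ∣ y) : gp S y = rS S y := by
  unfold gp rS
  refine prod_congr rfl fun p hp => ?_
  rw [Finset.mem_sdiff] at hp
  have hpp := Nat.prime_of_mem_primeFactors hp.1
  have h1 : y.factorization p ≤ 1 := by
    by_contra hcon
    push Not at hcon
    exact h p hpp hp.2 ((hpp.pow_dvd_iff_le_factorization hy).mpr hcon)
  have h2 : 1 ≤ y.factorization p :=
    (hpp.dvd_iff_one_le_factorization hy).mp (Nat.dvd_of_mem_primeFactors hp.1)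
  have h3 : y.factorization p = 1 := le_antisymm h1 h2
  rw [h3, pow_one]

theorem le_rS {S : Finset ℕ} {y p : ℕ} (hy : y ≠ 0) (hp : p.Prime) (hS : p ∉ S) (h : p ∣ y) :
    p ≤ rS S y := by
  refine Nat.le_of_dvd (rS_pos S y) ?_
  unfold rS
  exact dvd_prod_of_mem _ (Finset.mem_sdiff.mpr ⟨Nat.mem_primeFactors.mpr ⟨hp, h, hy⟩, hS⟩)

/-- the radical of the product -/
theorem prod_rS {ι : Type*} (F : Finset ι) (b : ι → ℕ) {S : Finset ℕ} {y : ℕ} (hy : y ≠ 0)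
    (hd : ∀ i ∈ F, ∀ p : ℕ, p.Prime → p ∉ S → p ∣ b i → p ∣ y)
    (hne : ∀ i ∈ F, ∀ j ∈ F, i ≠ j → ∀ p : ℕ, p.Prime → p ∉ S → p ∣ b i → ¬ p ∣ b j) :
    ∏ i ∈ F, rS S (b i) ≤ rS S y := by
  classical
  unfold rS
  rw [← prod_biUnion]
  · refine prod_le_prod_of_subset_of_one_le' ?_ fun p hp _ =>
      (Nat.prime_of_mem_primeFactors (Finset.mem_sdiff.mp hp).1).one_le
    intro p hp
    rw [mem_biUnion] at hp
    obtain ⟨i, hi, hp⟩ := hp
    rw [Finset.mem_sdiff] at hp ⊢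
    have hpp := Nat.prime_of_mem_primeFactors hp.1
    exact ⟨Nat.mem_primeFactors.mpr ⟨hpp, hd i hi p hpp hp.2 (Nat.dvd_of_mem_primeFactors hp.1), hy⟩,
      hp.2⟩
  · intro i hi j hj hij
    rw [Function.onFun, disjoint_left]
    intro p hp hp'
    rw [Finset.mem_sdiff] at hp hp'
    exact hne i hi j hj hij p (Nat.prime_of_mem_primeFactors hp.1) hp.2
      (Nat.dvd_of_mem_primeFactors hp.1) (Nat.dvd_of_mem_primeFactors hp'.1)

end Pool.Agent.N365.SZ
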