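import Pool.Agent.N365.SZ.C2

/-!
# The radical of the values of a binary form at almost all pairs
-/

set_option autoImplicit false

namespace Pool.Agent.N365.SZ

open Finset Polynomial Filter UniqueFactorizationMonoid
open Pool.Agent.Y670.RD (fv fvq fv_eq fv_le fv_mul toQ toQ_inj clr clr_dvd fv_mod fv_zero gp excess gp_eq)
open Pool.Agent.Y679.Md (rS rS_pos mx)

/-- the exponent of an irreducible factor -/
def rho (d : ℕ) : ℕ := if d ≤ 4 then d else 2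

/-- the sum of the exponents over the irreducible factors of `g` -/
noncomputable def rr (g : ℤ[X]) : ℕ := ((normalizedFactors (toQ g)).map fun π => rho π.natDegree).sum

/-- the bad primes -/
theorem bad_primes {g : ℤ[X]} (hg : g ≠ 0) {F : Finset ℚ[X]} {gi : ℚ[X] → ℤ[X]} {m m' D : ℤ}
    (hm : m ≠ 0) (hm' : m' ≠ 0) (hD : D ≠ 0)
    (hR : ∀ π ∈ F, ∀ π' ∈ F, π ≠ π' →
      ∃ (R : ℤ) (u w : ℤ[X]), R ≠ 0 ∧ C R = u * gi π + w * gi π') :
    ∃ S0 : Finset ℕ, ∀ p : ℕ, p.Prime → p ∉ S0 → ¬ (p : ℤ) ∣ g.leadingCoeff ∧ ¬ (p : ℤ) ∣ m ∧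
      ¬ (p : ℤ) ∣ m' ∧ ¬ (p : ℤ) ∣ D ∧ ∀ π ∈ F, ∀ π' ∈ F, π ≠ π' → ∀ x : ℤ,
        (p : ℤ) ∣ (gi π).eval x → ¬ (p : ℤ) ∣ (gi π').eval x := by
  classical
  choose R u w hR0 hRe using hR
  obtain ⟨R', hR'⟩ : ∃ R' : ℚ[X] → ℚ[X] → ℤ, ∀ π (h : π ∈ F) π' (h' : π' ∈ F) (hne : π ≠ π'),
      R' π π' = R π h π' h' hne := by
    refine ⟨fun π π' => if h : π ∈ F ∧ π' ∈ F ∧ π ≠ π' then R π h.1 π' h.2.1 h.2.2 else 1, ?_⟩
    intro π h π' h' hne
    simp only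
    rw [dif_pos ⟨h, h', hne⟩]
  have key : ∀ (k : ℤ) (p : ℕ), k ≠ 0 → p.Prime → p ∉ k.natAbs.primeFactors → ¬ (p : ℤ) ∣ k := by
    intro k p hk hp hn hd
    apply hn
    rw [Nat.mem_primeFactors]
    exact ⟨hp, by rwa [← Int.natCast_dvd], Int.natAbs_ne_zero.mpr hk⟩
  refine ⟨g.leadingCoeff.natAbs.primeFactors ∪ m.natAbs.primeFactors ∪ m'.natAbs.primeFactors ∪
    D.natAbs.primeFactors ∪ (F ×ˢ F).biUnion fun x => (R' x.1 x.2).natAbs.primeFactors, ?_⟩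
  intro p hp hpS
  simp only [mem_union, not_or] at hpS
  obtain ⟨⟨⟨⟨h1, h2⟩, h3⟩, h4⟩, h5⟩ := hpS
  refine ⟨key _ p (leadingCoeff_ne_zero.mpr hg) hp h1, key _ p hm hp h2, key _ p hm' hp h3,
    key _ p hD hp h4, ?_⟩
  intro π hπ π' hπ' hne x hd hd'
  rw [mem_biUnion] at h5
  push Not at h5
  have h6 := h5 (π, π') (mem_product.mpr ⟨hπ, hπ'⟩)
  simp only at h6
  rw [hR' π hπ π' hπ' hne] at h6
  refine key _ p (hR0 π hπ π' hπ' hne) hp h6 ?_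
  have h7 := congrArg (eval x) (hRe π hπ π' hπ' hne)
  rw [eval_C, eval_add, eval_mul, eval_mul] at h7
  rw [h7]
  exact dvd_add (hd.mul_left _) (hd'.mul_left _)

/-- a constant bounding the factors -/
theorem fac_bound (F : Finset ℚ[X]) (gi : ℚ[X] → ℤ[X]) : ∃ K : ℝ, 1 ≤ K ∧ ∀ π ∈ F,
    ∀ (B : ℕ) (P : ℤ × ℤ), P ∈ Box B →
      |(fv (gi π).natDegree (gi π) P.1 P.2 : ℝ)| ≤ K * (B : ℝ) ^ (gi π).natDegree := by
  refine ⟨1 + ∑ π ∈ F, ∑ i ∈ range ((gi π).natDegree + 1), |((gi π).coeff i : ℝ)|, ?_, ?_⟩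
  · have : 0 ≤ ∑ π ∈ F, ∑ i ∈ range ((gi π).natDegree + 1), |((gi π).coeff i : ℝ)| :=
      sum_nonneg fun _ _ => sum_nonneg fun _ _ => abs_nonneg _
    linarith
  · intro π hπ B P hP
    refine (fv_le _ _ _ _).trans ?_
    have h1 : ∑ i ∈ range ((gi π).natDegree + 1), |((gi π).coeff i : ℝ)| ≤
        1 + ∑ π ∈ F, ∑ i ∈ range ((gi π).natDegree + 1), |((gi π).coeff i : ℝ)| := by
      have := single_le_sum (f := fun π => ∑ i ∈ range ((gi π).natDegree + 1),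
        |((gi π).coeff i : ℝ)|) (fun _ _ => sum_nonneg fun _ _ => abs_nonneg _) hπ
      linarith
    have h2 := (mem_Box.mp hP).1
    have h3 : max |(P.1 : ℝ)| |(P.2 : ℝ)| ≤ B := by
      refine max_le ?_ ?_
      · exact_mod_cast h2.1
      · exact_mod_cast h2.2
    refine mul_le_mul h1 (pow_le_pow_left₀ (le_max_of_le_left (abs_nonneg _)) h3 _) (by positivity) ?_
    have : 0 ≤ ∑ π ∈ F, ∑ i ∈ range ((gi π).natDegree + 1), |((gi π).coeff i : ℝ)| :=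
      sum_nonneg fun _ _ => sum_nonneg fun _ _ => abs_nonneg _
    linarith

/-- the local analysis of a good pair -/
theorem good_pair {g : ℤ[X]} {F : Finset ℚ[X]} {gi : ℚ[X] → ℤ[X]} {m m' : ℤ}
    (hm : m ≠ 0) (hm' : m' ≠ 0) (hgi : ∀ π ∈ F, gi π ≠ 0 ∧ (gi π).natDegree = π.natDegree ∧
      1 ≤ π.natDegree) (hfac : C m * g = C m' * ∏ π ∈ F, gi π) {S : Finset ℕ}
    (hSp : ∀ p ∈ S, p.Prime)
    (hS : ∀ p : ℕ, p.Prime → p ∉ S → ¬ (p : ℤ) ∣ g.leadingCoeff ∧ ¬ (p : ℤ) ∣ m ∧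
      ¬ (p : ℤ) ∣ m' ∧ ∀ π ∈ F, ∀ π' ∈ F, π ≠ π' → ∀ x : ℤ,
        (p : ℤ) ∣ (gi π).eval x → ¬ (p : ℤ) ∣ (gi π').eval x)
    {K c1 : ℝ} (hc1 : 1 ≤ c1) (hKc : K ≤ c1) {B : ℕ} (hB : 1 ≤ B) {P : ℤ × ℤ}
    (hP : P ∈ Box B)
    (hKb : ∀ π ∈ F, |(fv (gi π).natDegree (gi π) P.1 P.2 : ℝ)| ≤ K * (B : ℝ) ^ (gi π).natDegree)
    (ht : P.2 ≠ 0) {τ : ℚ[X] → ℝ} (hτ0 : ∀ π ∈ F, 0 < τ π)
    (hτ : ∀ π ∈ F, τ π * (B : ℝ) ^ (gi π).natDegree ≤ |(fv (gi π).natDegree (gi π) P.1 P.2 : ℝ)|)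
    {k : ℚ[X] → ℕ → ℕ}
    (hk : ∀ π ∈ F, ∀ p ∈ S, ¬ (p : ℤ) ^ k π p ∣ fv (gi π).natDegree (gi π) P.1 P.2)
    (hlarge : ∀ p : ℕ, p.Prime → p ∉ S → (p : ℤ) ^ 2 ∣ fv g.natDegree g P.1 P.2 →
      c1 * (B : ℝ) ^ 2 < p) :
    fv g.natDegree g P.1 P.2 ≠ 0 ∧
      (∏ π ∈ F, min 1 (τ π / ((∏ p ∈ S, p ^ k π p : ℕ) : ℝ))) *
        (B : ℝ) ^ (∑ π ∈ F, rho π.natDegree) ≤
        (rS S (fv g.natDegree g P.1 P.2).natAbs : ℝ) := by
  classical
  have hBR : (1 : ℝ) ≤ B := by exact_mod_cast hB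
  have hcop := (mem_Box.mp hP).2
  have hform := fv_fac hm hm' (fun π hπ => (hgi π hπ).1) hfac (s := P.1) ht
  obtain ⟨y, hy⟩ : ∃ y : ℚ[X] → ℤ, ∀ π, y π = fv (gi π).natDegree (gi π) P.1 P.2 := ⟨_, fun _ => rfl⟩
  obtain ⟨G, hG⟩ : ∃ G : ℤ, G = fv g.natDegree g P.1 P.2 := ⟨_, rfl⟩
  simp only [← hy] at hτ hk hKb hform
  rw [← hG] at hform hlarge ⊢
  have hy0 : ∀ π ∈ F, y π ≠ 0 := by
    intro π hπ h0
    have h1 := hτ π hπ
    rw [h0, Int.cast_zero, abs_zero] at h1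
    have h2 : 0 < τ π * (B : ℝ) ^ (gi π).natDegree := mul_pos (hτ0 π hπ) (by positivity)
    linarith
  have hG0 : G ≠ 0 := by
    intro h0
    rw [h0, mul_zero] at hform
    exact mul_ne_zero hm' (prod_ne_zero_iff.mpr hy0) hform.symm
  refine ⟨hG0, ?_⟩
  -- primes outside `S`
  have hdiv : ∀ π ∈ F, ∀ p : ℕ, p.Prime → p ∉ S → ∀ j : ℕ, (p : ℤ) ^ j ∣ y π → (p : ℤ) ^ j ∣ G := by
    intro π hπ p hp hpS j hd
    have hpr : Prime (p : ℤ) := Nat.prime_iff_prime_int.mp hp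
    have h1 : (p : ℤ) ^ j ∣ m * G := by
      rw [hform]
      exact (hd.trans (dvd_prod_of_mem y hπ)).mul_left _
    exact ((hpr.irreducible.coprime_iff_not_dvd.mpr (hS p hp hpS).2.1).pow_left).dvd_of_dvd_mul_left h1
  have hdis : ∀ π ∈ F, ∀ π' ∈ F, π ≠ π' → ∀ p : ℕ, p.Prime → p ∉ S → (p : ℤ) ∣ y π →
      ¬ (p : ℤ) ∣ y π' := by
    intro π hπ π' hπ' hne p hp hpS hd hd'
    have h1 : (p : ℤ) ∣ G := by
      have := hdiv π hπ p hp hpS 1 (by rwa [pow_one])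
      rwa [pow_one] at this
    rw [hG] at h1
    have hpt := not_dvd_t hp hcop (hS p hp hpS).1 h1
    obtain ⟨x, hx⟩ := chart hp hpt 1 P.1
    have e1 := (fv_chart hp hpt hx le_rfl (le_refl (gi π).natDegree)).mp (by rw [pow_one, ← hy]; exact hd)
    have e2 := (fv_chart hp hpt hx le_rfl (le_refl (gi π').natDegree)).mp (by rw [pow_one, ← hy]; exact hd')
    rw [pow_one] at e1 e2
    exact (hS p hp hpS).2.2.2 π hπ π' hπ' hne x e1 e2
  -- each factor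
  have hone : ∀ π ∈ F, min 1 (τ π / ((∏ p ∈ S, p ^ k π p : ℕ) : ℝ)) * (B : ℝ) ^ (rho π.natDegree) ≤
      (rS S (y π).natAbs : ℝ) := by
    intro π hπ
    have hyn : (y π).natAbs ≠ 0 := Int.natAbs_ne_zero.mpr (hy0 π hπ)
    obtain ⟨Cs, hCs⟩ : ∃ Cs : ℕ, Cs = ∏ p ∈ S, p ^ k π p := ⟨_, rfl⟩
    have hCs1 : 1 ≤ Cs := by
      rw [hCs]
      exact Nat.one_le_iff_ne_zero.mpr (prod_ne_zero_iff.mpr fun p hp => pow_ne_zero _ (hSp p hp).ne_zero)
    have hCsR : (1 : ℝ) ≤ Cs := by exact_mod_cast hCs1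
    rw [← hCs]
    have hgp := gp_ge hyn hSp (k π) (by
      intro p hp hd
      apply hk π hπ p hp
      rw [← Int.natCast_dvd_natCast] at hd
      push_cast at hd
      exact (dvd_abs _ _).mp hd)
    rw [← hCs] at hgp
    have habs : |((y π : ℤ) : ℝ)| = ((y π).natAbs : ℝ) := by rw [Nat.cast_natAbs, Int.cast_abs]
    have h1 := hτ π hπ
    rw [habs] at h1
    have h2 : ((y π).natAbs : ℝ) ≤ Cs * (gp S (y π).natAbs : ℝ) := by exact_mod_cast hgp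
    have h3 : τ π / Cs * (B : ℝ) ^ (gi π).natDegree ≤ (gp S (y π).natAbs : ℝ) := by
      rw [div_mul_eq_mul_div, div_le_iff₀ (by linarith)]
      linarith
    have hτC : 0 < τ π / Cs := div_pos (hτ0 π hπ) (by linarith)
    have hmin0 : 0 ≤ min 1 (τ π / (Cs : ℝ)) := le_min zero_le_one hτC.le
    have hdeg := (hgi π hπ).2.1
    by_cases hsq : ∃ p : ℕ, p.Prime ∧ p ∉ S ∧ (p : ℤ) ^ 2 ∣ y π
    · obtain ⟨p, hp, hpS, hpd⟩ := hsq
      have h4 := hlarge p hp hpS (hdiv π hπ p hp hpS 2 hpd)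
      have hpB : (B : ℝ) ^ 2 ≤ p := by
        have : (B : ℝ) ^ 2 ≤ c1 * (B : ℝ) ^ 2 := le_mul_of_one_le_left (by positivity) hc1
        linarith
      have h5 : ¬ π.natDegree ≤ 4 := by
        intro hle
        have h6 : ((p : ℝ)) ^ 2 ≤ |((y π : ℤ) : ℝ)| := by
          have := Int.le_of_dvd (abs_pos.mpr (hy0 π hπ)) ((dvd_abs _ _).mpr hpd)
          exact_mod_cast this
        have h7 := h6.trans (hKb π hπ)
        have h8 : (B : ℝ) ^ (gi π).natDegree ≤ (B : ℝ) ^ 4 :=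
          pow_le_pow_right₀ hBR (by rw [hdeg]; exact hle)
        have h9 : K * (B : ℝ) ^ (gi π).natDegree ≤ c1 * (B : ℝ) ^ 4 :=
          mul_le_mul hKc h8 (by positivity) (by linarith)
        have h10 : (c1 * (B : ℝ) ^ 2) ^ 2 < (p : ℝ) ^ 2 :=
          pow_lt_pow_left₀ h4 (by positivity) two_ne_zero
        have h11 : c1 * (B : ℝ) ^ 4 ≤ (c1 * (B : ℝ) ^ 2) ^ 2 := by
          have e : (c1 * (B : ℝ) ^ 2) ^ 2 = c1 * (c1 * (B : ℝ) ^ 4) := by ring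
          rw [e]
          exact le_mul_of_one_le_left (by positivity) hc1
        linarith
      have e : rho π.natDegree = 2 := by unfold rho; rw [if_neg h5]
      rw [e]
      have h6 : (p : ℝ) ≤ (rS S (y π).natAbs : ℝ) := by
        have : p ∣ (y π).natAbs := by
          rw [← Int.natCast_dvd]
          exact (dvd_pow_self _ two_ne_zero).trans hpd
        exact_mod_cast le_rS hyn hp hpS this
      refine (mul_le_of_le_one_left (by positivity) (min_le_left _ _)).trans ?_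
      linarith
    · push Not at hsq
      have h4 : gp S (y π).natAbs = rS S (y π).natAbs := gp_rS hyn (by
        intro p hp hpS hd
        apply hsq p hp hpS
        rw [← Int.natCast_dvd_natCast] at hd
        push_cast at hd
        exact (dvd_abs _ _).mp hd)
      rw [h4] at h3
      refine le_trans ?_ h3
      refine mul_le_mul (min_le_right _ _) ?_ (by positivity) hτC.le
      refine pow_le_pow_right₀ hBR ?_
      rw [hdeg]
      unfold rho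
      split_ifs <;> omega
  have hprod := prod_rS F (fun π => (y π).natAbs) (S := S) (y := G.natAbs) (Int.natAbs_ne_zero.mpr hG0)
    (by
      intro π hπ p hp hpS hd
      have := hdiv π hπ p hp hpS 1 (by rw [pow_one, Int.natCast_dvd]; exact hd)
      rw [pow_one, Int.natCast_dvd] at this
      exact this)
    (by
      intro π hπ π' hπ' hne p hp hpS hd hd'
      exact hdis π hπ π' hπ' hne p hp hpS (by rw [Int.natCast_dvd]; exact hd)
        (by rw [Int.natCast_dvd]; exact hd'))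
  have hprodR : ∏ π ∈ F, (rS S (y π).natAbs : ℝ) ≤ (rS S G.natAbs : ℝ) := by exact_mod_cast hprod
  refine le_trans ?_ hprodR
  rw [← prod_pow_eq_pow_sum, ← prod_mul_distrib]
  refine prod_le_prod (fun π hπ => ?_) hone
  refine mul_nonneg (le_min zero_le_one ?_) (by positivity)
  exact div_nonneg (hτ0 π hπ).le (Nat.cast_nonneg _)

end Pool.Agent.N365.SZ
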