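import Pool.Agent.N365.SZ.C3

/-!
# Counting theorem: the radical of the values of a binary form
-/

set_option autoImplicit false

namespace Pool.Agent.N365.SZ

open Finset Polynomial Filter UniqueFactorizationMonoid
open Pool.Agent.Y670.RD (fv fvq fv_eq fv_le fv_mul toQ toQ_inj clr clr_dvd fv_mod fv_zero gp excess gp_eq)
open Pool.Agent.Y679.Md (rS rS_pos mx)

theorem ev_pow (d : ℕ) (δ : ℝ) (hδ : 0 < δ) : ∃ k' : ℕ, ∀ p : ℕ, 2 ≤ p → ∀ᶠ B : ℕ in atTop,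
    (d : ℝ) * (8 * (B : ℝ) ^ 2 / (p : ℝ) ^ k' + 4) ≤ δ * (B : ℝ) ^ 2 := by
  obtain ⟨k', hk'⟩ := pow_unbounded_of_one_lt (16 * (d : ℝ) / δ) (one_lt_two (α := ℝ))
  refine ⟨k', fun p hp => ?_⟩
  filter_upwards [eventually_ge_atTop 1, eventually_ge_atTop ⌈8 * (d : ℝ) / δ⌉₊] with B hB1 hB2
  have hB : (1 : ℝ) ≤ B := by exact_mod_cast hB1
  have h1 : 8 * (d : ℝ) / δ ≤ B := (Nat.le_ceil _).trans (by exact_mod_cast hB2)
  rw [div_le_iff₀ hδ] at h1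
  rw [div_lt_iff₀ hδ] at hk'
  have h2 : (2 : ℝ) ^ k' ≤ (p : ℝ) ^ k' := pow_le_pow_left₀ (by norm_num) (by exact_mod_cast hp) _
  have h3 : (0 : ℝ) < (2 : ℝ) ^ k' := by positivity
  have h4 : (0 : ℝ) < (p : ℝ) ^ k' := by linarith
  have h5 : (d : ℝ) * (8 * (B : ℝ) ^ 2 / (p : ℝ) ^ k') ≤ δ / 2 * (B : ℝ) ^ 2 := by
    rw [mul_div_assoc', div_le_iff₀ h4]
    have h6 : 16 * (d : ℝ) ≤ (p : ℝ) ^ k' * δ := by nlinarith
    have h7 : (0 : ℝ) ≤ (B : ℝ) ^ 2 := by positivity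
    nlinarith
  have h6 : (d : ℝ) * 4 ≤ δ / 2 * (B : ℝ) ^ 2 := by
    have h7 : (B : ℝ) ≤ (B : ℝ) ^ 2 := by nlinarith
    nlinarith
  linarith

theorem ev_mul (δ : ℝ) (hδ : 0 < δ) (K : ℝ) : ∀ᶠ B : ℕ in atTop, K ≤ δ * (B : ℝ) ^ 2 := by
  filter_upwards [eventually_ge_atTop 1, eventually_ge_atTop ⌈|K| / δ⌉₊] with B hB1 hB2
  have hB : (1 : ℝ) ≤ B := by exact_mod_cast hB1
  have h1 : |K| / δ ≤ B := (Nat.le_ceil _).trans (by exact_mod_cast hB2)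
  rw [div_le_iff₀ hδ] at h1
  have h2 := le_abs_self K
  have h7 : (B : ℝ) ≤ (B : ℝ) ^ 2 := by nlinarith
  nlinarith

/-- **the counting theorem** -/
theorem main_count {g : ℤ[X]} (hg1 : 1 ≤ g.natDegree) (hsq : Squarefree (toQ g)) (S1 : Finset ℕ)
    (hS1 : ∀ p ∈ S1, p.Prime) (c1 δ : ℝ) (hc1 : 1 ≤ c1) (hδ : 0 < δ) :
    ∃ (S : Finset ℕ) (c : ℝ), (∀ p ∈ S, p.Prime) ∧ S1 ⊆ S ∧ 0 < c ∧ ∀ᶠ B : ℕ in atTop,
      ∃ E : Finset (ℤ × ℤ), (E.card : ℝ) ≤ δ * (B : ℝ) ^ 2 ∧ ∀ P ∈ Box B, P ∉ E →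
        fv g.natDegree g P.1 P.2 ≠ 0 ∧
        c * (B : ℝ) ^ (rr g) ≤ (rS S (fv g.natDegree g P.1 P.2).natAbs : ℝ) ∧
        ∀ p : ℕ, p.Prime → p ∉ S → (p : ℤ) ^ 2 ∣ fv g.natDegree g P.1 P.2 →
          c1 * (B : ℝ) ^ 2 < p := by
  classical
  have hg : g ≠ 0 := by
    rintro rfl
    simp at hg1
  obtain ⟨F, gi, m, m', hF, hm, hm', hgi, hfac, hcopr⟩ := fac hg hsq
  obtain ⟨D, u, w, hD, hDe⟩ := bez_der hsq
  obtain ⟨S0, hS0⟩ := bad_primes hg hm hm' hD hcopr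
  obtain ⟨K, hK1, hKb⟩ := fac_bound F gi
  obtain ⟨c2, hc2⟩ : ∃ c2 : ℝ, c2 = c1 + K := ⟨_, rfl⟩
  have hc21 : 1 ≤ c2 := by rw [hc2]; linarith
  have hγ0 : (0 : ℝ) < g.natDegree := by exact_mod_cast hg1
  -- `z`
  obtain ⟨z, hz⟩ : ∃ z : ℕ, z = ⌈64 * (g.natDegree : ℝ) / δ⌉₊ + 1 := ⟨_, rfl⟩
  have hz1 : 1 ≤ z := by omega
  have hzR : 64 * (g.natDegree : ℝ) / δ ≤ z := by
    rw [hz]
    push_cast
    have := Nat.le_ceil (64 * (g.natDegree : ℝ) / δ)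
    linarith
  have hz0 : (0 : ℝ) < z := by exact_mod_cast hz1
  obtain ⟨S, hS⟩ : ∃ S : Finset ℕ, S = S0.filter Nat.Prime ∪ S1 ∪ (range (z + 1)).filter Nat.Prime :=
    ⟨_, rfl⟩
  have hSp : ∀ p ∈ S, p.Prime := by
    intro p hp
    rw [hS, mem_union, mem_union, mem_filter, mem_filter] at hp
    rcases hp with (hp | hp) | hp
    · exact hp.2
    · exact hS1 p hp
    · exact hp.2
  have hS1S : S1 ⊆ S := by
    intro p hp
    rw [hS, mem_union, mem_union]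
    exact Or.inl (Or.inr hp)
  have hSn : ∀ p : ℕ, p.Prime → p ∉ S → p ∉ S0 ∧ z < p := by
    intro p hp hpS
    rw [hS, mem_union, mem_union, mem_filter, mem_filter, mem_range] at hpS
    constructor
    · intro h; exact hpS (Or.inl (Or.inl ⟨h, hp⟩))
    · by_contra h
      exact hpS (Or.inr ⟨by omega, hp⟩)
  -- `τ`
  obtain ⟨δ1, hδ1⟩ : ∃ δ1 : ℝ, δ1 = δ / (4 * (F.card + 1)) := ⟨_, rfl⟩
  have hδ10 : 0 < δ1 := by rw [hδ1]; positivity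
  have hτex : ∀ π : ℚ[X], ∃ τ : ℝ, 0 < τ ∧ (π ∈ F → ∀ᶠ B : ℕ in atTop,
      (((Box B).filter fun P => P.2 ≠ 0 ∧ |(fv (gi π).natDegree (gi π) P.1 P.2 : ℝ)| <
        τ * (B : ℝ) ^ (gi π).natDegree).card : ℝ) ≤ δ1 * (B : ℝ) ^ 2) := by
    intro π
    by_cases hπ : π ∈ F
    · obtain ⟨τ, h1, h2⟩ := card_small (hgi π hπ).1 δ1 hδ10
      exact ⟨τ, h1, fun _ => h2⟩
    · exact ⟨1, one_pos, fun h => absurd h hπ⟩
  choose τ hτ0 hτev using hτex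
  -- `k`
  obtain ⟨δ3, hδ3⟩ : ∃ δ3 : ℝ, δ3 = δ / (4 * (F.card * S.card + 1)) := ⟨_, rfl⟩
  have hδ30 : 0 < δ3 := by rw [hδ3]; positivity
  have hkex : ∀ (π : ℚ[X]) (p : ℕ), ∃ k : ℕ, π ∈ F → p ∈ S → ∀ᶠ B : ℕ in atTop,
      (((Box B).filter fun P => (p : ℤ) ^ k ∣ fv (gi π).natDegree (gi π) P.1 P.2).card : ℝ) ≤
        δ3 * (B : ℝ) ^ 2 := by
    intro π p
    by_cases hπ : π ∈ F ∧ p ∈ S
    · obtain ⟨k', hk'⟩ := ev_pow (gi π).natDegree δ3 hδ30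
      obtain ⟨k, hk⟩ := card_pow (hSp p hπ.2) (hgi π hπ.1).1 k'
      refine ⟨k, fun _ _ => ?_⟩
      filter_upwards [hk' p (hSp p hπ.2).two_le] with B hB
      exact (hk B).trans hB
    · exact ⟨0, fun h1 h2 => absurd ⟨h1, h2⟩ hπ⟩
  choose k hk using hkex
  obtain ⟨c, hc⟩ : ∃ c : ℝ, c = ∏ π ∈ F, min 1 (τ π / ((∏ p ∈ S, p ^ k π p : ℕ) : ℝ)) := ⟨_, rfl⟩
  have hc0 : 0 < c := by
    rw [hc]
    refine prod_pos fun π _ => lt_min one_pos (div_pos (hτ0 π) ?_)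
    have : 0 < ∏ p ∈ S, p ^ k π p := Nat.pos_of_ne_zero
      (prod_ne_zero_iff.mpr fun p hp => pow_ne_zero _ (hSp p hp).ne_zero)
    exact_mod_cast this
  have hrr : rr g = ∑ π ∈ F, rho π.natDegree := by
    unfold rr
    rw [← hF]
    rfl
  refine ⟨S, c, hSp, hS1S, hc0, ?_⟩
  have ev1 : ∀ᶠ B : ℕ in atTop, ∀ π ∈ F, (((Box B).filter fun P => P.2 ≠ 0 ∧
      |(fv (gi π).natDegree (gi π) P.1 P.2 : ℝ)| < τ π * (B : ℝ) ^ (gi π).natDegree).card : ℝ) ≤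
        δ1 * (B : ℝ) ^ 2 := by
    rw [Filter.eventually_all_finset]
    exact fun π hπ => hτev π hπ
  have ev3 : ∀ᶠ B : ℕ in atTop, ∀ x ∈ F ×ˢ S, (((Box B).filter fun P =>
      (x.2 : ℤ) ^ k x.1 x.2 ∣ fv (gi x.1).natDegree (gi x.1) P.1 P.2).card : ℝ) ≤
        δ3 * (B : ℝ) ^ 2 := by
    rw [Filter.eventually_all_finset]
    intro x hx
    rw [mem_product] at hx
    exact hk x.1 x.2 hx.1 hx.2
  have hpi := pi_small c2 (δ / (32 * g.natDegree)) (by linarith) (by positivity)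
  filter_upwards [eventually_ge_atTop 1, card_zero (δ / 4) (by positivity), ev1, ev3, hpi]
    with B hB1 hB0 hE1 hE3 hpiB
  have hBR : (1 : ℝ) ≤ B := by exact_mod_cast hB1
  obtain ⟨Y, hY⟩ : ∃ Y : ℕ, Y = ⌊c2 * (B : ℝ) ^ 2⌋₊ := ⟨_, rfl⟩
  rw [← hY] at hpiB
  -- the exceptional sets
  obtain ⟨E0, hE0d⟩ : ∃ E0, E0 = (Box B).filter fun P => P.2 = 0 := ⟨_, rfl⟩
  obtain ⟨E1, hE1d⟩ : ∃ E1, E1 = F.biUnion fun π => (Box B).filter fun P => P.2 ≠ 0 ∧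
      |(fv (gi π).natDegree (gi π) P.1 P.2 : ℝ)| < τ π * (B : ℝ) ^ (gi π).natDegree := ⟨_, rfl⟩
  obtain ⟨I, hI⟩ : ∃ I, I = ((Ioc z Y).filter Nat.Prime).filter fun p => p ∉ S := ⟨_, rfl⟩
  obtain ⟨E2, hE2d⟩ : ∃ E2, E2 = I.biUnion fun p => (Box B).filter fun P =>
      (p : ℤ) ^ 2 ∣ fv g.natDegree g P.1 P.2 := ⟨_, rfl⟩
  obtain ⟨E3, hE3d⟩ : ∃ E3, E3 = (F ×ˢ S).biUnion fun x => (Box B).filter fun P =>
      (x.2 : ℤ) ^ k x.1 x.2 ∣ fv (gi x.1).natDegree (gi x.1) P.1 P.2 := ⟨_, rfl⟩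
  have hsub : ∀ P ∈ Box B, P ∉ ((E0 ∪ E1) ∪ E2) ∪ E3 → fv g.natDegree g P.1 P.2 ≠ 0 ∧
        c * (B : ℝ) ^ (rr g) ≤ (rS S (fv g.natDegree g P.1 P.2).natAbs : ℝ) ∧
        ∀ p : ℕ, p.Prime → p ∉ S → (p : ℤ) ^ 2 ∣ fv g.natDegree g P.1 P.2 →
          c1 * (B : ℝ) ^ 2 < p := by
    intro P hPB hcon
    rw [mem_union, mem_union, mem_union, not_or, not_or, not_or] at hcon
    obtain ⟨⟨⟨n0, n1⟩, n2⟩, n3⟩ := hcon
    have ht : P.2 ≠ 0 := by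
      intro h
      apply n0
      rw [hE0d, mem_filter]
      exact ⟨hPB, h⟩
    have hlarge : ∀ p : ℕ, p.Prime → p ∉ S → (p : ℤ) ^ 2 ∣ fv g.natDegree g P.1 P.2 →
        c2 * (B : ℝ) ^ 2 < p := by
      intro p hp hpS hd
      by_contra hle
      push Not at hle
      apply n2
      rw [hE2d, mem_biUnion]
      refine ⟨p, ?_, mem_filter.mpr ⟨hPB, hd⟩⟩
      rw [hI, mem_filter, mem_filter, mem_Ioc]
      refine ⟨⟨⟨(hSn p hp hpS).2, ?_⟩, hp⟩, hpS⟩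
      rw [hY]
      exact Nat.le_floor hle
    have hgood := good_pair (S := S) hm hm' hgi hfac hSp (fun p hp hpS => by
      obtain ⟨a1, a2, a3, -, a5⟩ := hS0 p hp (hSn p hp hpS).1
      exact ⟨a1, a2, a3, a5⟩) (K := K) (c1 := c2) hc21 (by rw [hc2]; linarith) hB1 hPB
      (fun π hπ => hKb π hπ B P hPB) ht (τ := τ) (fun π _ => hτ0 π) (by
        intro π hπ
        by_contra hlt
        push Not at hlt
        apply n1
        rw [hE1d, mem_biUnion]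
        exact ⟨π, hπ, mem_filter.mpr ⟨hPB, ht, hlt⟩⟩) (k := k) (by
        intro π hπ p hp hd
        apply n3
        rw [hE3d, mem_biUnion]
        exact ⟨(π, p), mem_product.mpr ⟨hπ, hp⟩, mem_filter.mpr ⟨hPB, hd⟩⟩) hlarge
    refine ⟨hgood.1, ?_, ?_⟩
    · rw [hrr, hc]
      exact hgood.2
    · intro p hp hpS hd
      have h1 := hlarge p hp hpS hd
      have h2 : c1 * (B : ℝ) ^ 2 ≤ c2 * (B : ℝ) ^ 2 :=
        mul_le_mul_of_nonneg_right (by rw [hc2]; linarith) (by positivity)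
      linarith
  have b0 : (E0.card : ℝ) ≤ δ / 4 * (B : ℝ) ^ 2 := by rw [hE0d]; exact hB0
  have b1 : (E1.card : ℝ) ≤ δ / 4 * (B : ℝ) ^ 2 := by
    rw [hE1d]
    calc _ ≤ ∑ π ∈ F, (((Box B).filter fun P => P.2 ≠ 0 ∧
          |(fv (gi π).natDegree (gi π) P.1 P.2 : ℝ)| < τ π * (B : ℝ) ^ (gi π).natDegree).card : ℝ) := by
          exact_mod_cast card_biUnion_le
      _ ≤ ∑ _π ∈ F, δ1 * (B : ℝ) ^ 2 := sum_le_sum hE1
      _ = (F.card * δ1) * (B : ℝ) ^ 2 := by rw [sum_const, nsmul_eq_mul]; ring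
      _ ≤ δ / 4 * (B : ℝ) ^ 2 := by
          refine mul_le_mul_of_nonneg_right ?_ (by positivity)
          rw [hδ1, mul_div_assoc', div_le_iff₀ (by positivity)]
          have : (0 : ℝ) ≤ F.card := Nat.cast_nonneg _
          nlinarith
  have b2 : (E2.card : ℝ) ≤ δ / 4 * (B : ℝ) ^ 2 := by
    rw [hE2d]
    calc _ ≤ ∑ p ∈ I, (((Box B).filter fun P => (p : ℤ) ^ 2 ∣ fv g.natDegree g P.1 P.2).card : ℝ) := by
          exact_mod_cast card_biUnion_le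
      _ ≤ ∑ p ∈ I, (g.natDegree : ℝ) * (8 * (B : ℝ) ^ 2 / (p : ℝ) ^ 2 + 4) := by
          refine sum_le_sum fun p hp => ?_
          rw [hI, mem_filter, mem_filter] at hp
          obtain ⟨a1, a2, a3, a4, -⟩ := hS0 p hp.1.2 (hSn p hp.1.2 hp.2).1
          exact card_sq hp.1.2 hDe a4 a1 B
      _ ≤ ∑ p ∈ (Ioc z Y).filter Nat.Prime, (g.natDegree : ℝ) * (8 * (B : ℝ) ^ 2 / (p : ℝ) ^ 2 + 4) := by
          refine sum_le_sum_of_subset_of_nonneg (by rw [hI]; exact filter_subset _ _)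
            fun p _ _ => by positivity
      _ ≤ (g.natDegree : ℝ) * (8 * (B : ℝ) ^ 2 / z) + (g.natDegree : ℝ) * 4 * Nat.primeCounting Y :=
          sum_primes z Y hz1 _ _ hγ0.le (by positivity)
      _ ≤ δ / 8 * (B : ℝ) ^ 2 + δ / 8 * (B : ℝ) ^ 2 := by
          refine add_le_add ?_ ?_
          · rw [mul_div_assoc', div_le_iff₀ hz0]
            rw [div_le_iff₀ hδ] at hzR
            have : (0 : ℝ) ≤ (B : ℝ) ^ 2 := by positivity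
            nlinarith
          · calc (g.natDegree : ℝ) * 4 * Nat.primeCounting Y ≤
                (g.natDegree : ℝ) * 4 * (δ / (32 * g.natDegree) * (B : ℝ) ^ 2) :=
                  mul_le_mul_of_nonneg_left hpiB (by positivity)
              _ = δ / 8 * (B : ℝ) ^ 2 := by field_simp; ring
      _ = δ / 4 * (B : ℝ) ^ 2 := by ring
  have b3 : (E3.card : ℝ) ≤ δ / 4 * (B : ℝ) ^ 2 := by
    rw [hE3d]
    calc _ ≤ ∑ x ∈ F ×ˢ S, (((Box B).filter fun P =>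
          (x.2 : ℤ) ^ k x.1 x.2 ∣ fv (gi x.1).natDegree (gi x.1) P.1 P.2).card : ℝ) := by
          exact_mod_cast card_biUnion_le
      _ ≤ ∑ _x ∈ F ×ˢ S, δ3 * (B : ℝ) ^ 2 := sum_le_sum hE3
      _ = ((F.card * S.card) * δ3) * (B : ℝ) ^ 2 := by
          rw [sum_const, nsmul_eq_mul, card_product]; push_cast; ring
      _ ≤ δ / 4 * (B : ℝ) ^ 2 := by
          refine mul_le_mul_of_nonneg_right ?_ (by positivity)
          rw [hδ3, mul_div_assoc', div_le_iff₀ (by positivity)]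
          have : (0 : ℝ) ≤ (F.card : ℝ) * S.card := by positivity
          nlinarith
  refine ⟨((E0 ∪ E1) ∪ E2) ∪ E3, ?_, hsub⟩
  calc (((((E0 ∪ E1) ∪ E2) ∪ E3).card : ℕ) : ℝ) ≤ ((E0.card + E1.card + E2.card + E3.card : ℕ) : ℝ) := by
        have h1 := card_union_le ((E0 ∪ E1) ∪ E2) E3
        have h2 := card_union_le (E0 ∪ E1) E2
        have h3 := card_union_le E0 E1
        exact_mod_cast (by omega : (((E0 ∪ E1) ∪ E2) ∪ E3).card ≤ E0.card + E1.card + E2.card + E3.card)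
    _ ≤ δ * (B : ℝ) ^ 2 := by push_cast; linarith

end Pool.Agent.N365.SZ
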